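import Mathlib

set_option autoImplicit false

namespace Pool.Agent.Helper919

open Finset

theorem exists_jacobi_neg_one_caseA (n : ℤ) (hn : n ≠ 0) (a b p : ℕ) (hab : b ^ 2 * a = n.natAbs)
    (hsf : Squarefree a) (hp : p.Prime) (hp2 : p ≠ 2) (hpa : p ∣ a) :
    ∃ d : ℕ, Odd d ∧ jacobiSym n d = -1 := by
  have hnabs : n.natAbs ≠ 0 := Int.natAbs_ne_zero.2 hn
  have hb0 : b ≠ 0 := by rintro rfl; simp at hab; omega
  obtain ⟨j, b', hb'1, hb'2⟩ := Nat.exists_eq_pow_mul_and_not_dvd hb0 p hp.ne_one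
  obtain ⟨a'', ha''⟩ := hpa
  have hpa'' : ¬ p ∣ a'' := by
    rintro ⟨c, hc⟩
    have h1 : p * p ∣ a := ⟨c, by rw [ha'', hc]; ring⟩
    exact hp.ne_one (Nat.isUnit_iff.1 (hsf p h1))
  have hM0 : b' ^ 2 * a'' ≠ 0 := by
    intro h
    rw [hb'2, ha''] at hab
    apply hnabs
    rw [← hab]
    calc (p ^ j * b') ^ 2 * (p * a'') = (p ^ j) ^ 2 * p * (b' ^ 2 * a'') := by ring
      _ = 0 := by rw [h]; ring
  have hpM : ¬ p ∣ b' ^ 2 * a'' := by
    intro h
    rcases (Nat.Prime.dvd_mul hp).1 h with h | h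
    · exact hb'1 (hp.dvd_of_dvd_pow h)
    · exact hpa'' h
  set M := b' ^ 2 * a'' with hM
  have hMn : n.natAbs = p ^ (2 * j + 1) * M := by
    rw [← hab, hb'2, ha'', hM]; ring
  have hnn : n = (p : ℤ) ^ (2 * j + 1) * (n.sign * (M : ℤ)) := by
    conv_lhs => rw [← Int.sign_mul_natAbs n, hMn]
    push_cast; ring
  have hfact : Fact p.Prime := ⟨hp⟩
  obtain ⟨g, hg⟩ := FiniteField.exists_nonsquare (F := ZMod p) (by rw [ZMod.ringChar_zmod_n]; exact hp2)
  have hcop : Nat.Coprime (8 * M) p := by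
    rw [Nat.coprime_comm, Nat.Prime.coprime_iff_not_dvd hp]
    intro h
    rcases (Nat.Prime.dvd_mul hp).1 h with h | h
    · have h2 : p ∣ 2 ^ 3 := by simpa using h
      exact hp2 ((Nat.prime_dvd_prime_iff_eq hp Nat.prime_two).1 (hp.dvd_of_dvd_pow h2))
    · exact hpM h
  obtain ⟨d, hd1, hd2⟩ := Nat.chineseRemainder hcop 1 g.val
  have hd8 : d % 8 = 1 := by
    have := hd1.of_mul_right M
    exact this
  have hd4 : d % 4 = 1 := by omega
  have hdo : Odd d := Nat.odd_iff.2 (by omega)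
  have hd0 : d ≠ 0 := by omega
  refine ⟨d, hdo, ?_⟩
  have hne : NeZero d := ⟨hd0⟩
  have hsign : n.sign = 1 ∨ n.sign = -1 := by
    rcases lt_or_gt_of_ne hn with h | h
    · right; exact Int.sign_eq_neg_one_of_neg h
    · left; exact Int.sign_eq_one_of_pos h
  have hnat : (n.sign * (M : ℤ)).natAbs = M := by
    rw [Int.natAbs_mul, Int.natAbs_natCast]
    rcases hsign with h | h <;> rw [h] <;> simp
  have h1 : jacobiSym (n.sign * (M : ℤ)) d = 1 := by
    rw [jacobiSym.mod_right _ hdo, hnat]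
    have h3 : d % (4 * M) = 1 := by
      have h4 : d ≡ 1 [MOD 4 * M] := hd1.of_dvd (by
        rw [show 8 * M = (4 * M) * 2 by ring]; exact dvd_mul_right _ _)
      unfold Nat.ModEq at h4
      rw [h4]
      exact Nat.mod_eq_of_lt (by omega)
    rw [h3, jacobiSym.one_right]
  have h2 : jacobiSym (p : ℤ) d = -1 := by
    rw [← jacobiSym.quadratic_reciprocity_one_mod_four hd4 (hp.odd_of_ne_two hp2),
      ← jacobiSym.legendreSym.to_jacobiSym, legendreSym.eq_neg_one_iff]
    have h3 : ((d : ℤ) : ZMod p) = g := by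
      have h4 : (d : ZMod p) = (g.val : ZMod p) := (ZMod.natCast_eq_natCast_iff d g.val p).2 hd2
      push_cast
      rw [h4, ZMod.natCast_zmod_val]
    rw [h3]; exact hg
  rw [hnn, jacobiSym.mul_left, jacobiSym.pow_left, h1, h2]
  rw [pow_add, pow_mul]; norm_num

theorem sq_jacobi_one {b d : ℕ} (h : Nat.Coprime b d) : jacobiSym ((b : ℤ) ^ 2) d = 1 := by
  rw [jacobiSym.pow_left]
  exact jacobiSym.sq_one (by simpa using h)

theorem exists_jacobi_neg_one (n : ℤ) (hn : ¬ IsSquare n) : ∃ d : ℕ, Odd d ∧ jacobiSym n d = -1 := by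
  have hn0 : n ≠ 0 := by rintro rfl; exact hn ⟨0, by simp⟩
  obtain ⟨a, b, hab, hsf⟩ := Nat.sq_mul_squarefree n.natAbs
  have hnabs : n.natAbs ≠ 0 := Int.natAbs_ne_zero.2 hn0
  have hb0 : b ≠ 0 := by rintro rfl; simp at hab; omega
  by_cases hodd : ∃ p, p.Prime ∧ p ≠ 2 ∧ p ∣ a
  · obtain ⟨p, hp, hp2, hpa⟩ := hodd
    exact exists_jacobi_neg_one_caseA n hn0 a b p hab hsf hp hp2 hpa
  · push Not at hodd
    have ha : a = 1 ∨ a = 2 := by
      by_cases h1 : a = 1
      · left; exact h1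
      · right
        obtain ⟨q, hq, hqa⟩ := Nat.exists_prime_and_dvd h1
        have hq2 : q = 2 := by
          by_contra h
          exact hodd q hq h hqa
        obtain ⟨c, hc⟩ := hqa
        subst hq2
        by_cases hc1 : c = 1
        · rw [hc, hc1]
        · exfalso
          obtain ⟨r, hr, hrc⟩ := Nat.exists_prime_and_dvd hc1
          have hr2 : r = 2 := by
            by_contra h
            exact hodd r hr h (hc ▸ hrc.mul_left 2)
          subst hr2
          obtain ⟨e, he⟩ := hrc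
          have h4 : 2 * 2 ∣ a := ⟨e, by rw [hc, he]; ring⟩
          have := Nat.isUnit_iff.1 (hsf 2 h4)
          omega
    have hb1 : 1 ≤ b := Nat.pos_of_ne_zero hb0
    rcases ha with ha | ha
    · -- |n| = b^2
      subst ha
      rcases Int.natAbs_eq n with h | h
      · exfalso; apply hn
        rw [h, ← hab]
        exact ⟨b, by push_cast; ring⟩
      · -- n = -b^2
        refine ⟨4 * b ^ 2 - 1, ?_, ?_⟩
        · have : 1 ≤ b ^ 2 := Nat.one_le_pow _ _ hb1
          rw [Nat.odd_iff]; omega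
        · have h1 : 1 ≤ b ^ 2 := Nat.one_le_pow _ _ hb1
          have hn' : n = -1 * (b : ℤ) ^ 2 := by rw [h, ← hab]; push_cast; ring
          have ho : Odd (4 * b ^ 2 - 1) := by rw [Nat.odd_iff]; omega
          have hcop : Nat.Coprime b (4 * b ^ 2 - 1) := by
            have h2 : Nat.Coprime (4 * b ^ 2) (4 * b ^ 2 - 1) := by
              have h3 := Nat.coprime_self_add_right (m := 4 * b ^ 2 - 1) (n := 1)
              have h4 : 4 * b ^ 2 - 1 + 1 = 4 * b ^ 2 := by omega
              rw [h4] at h3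
              exact (h3.2 (Nat.coprime_one_right _)).symm
            exact Nat.Coprime.coprime_dvd_left ⟨4 * b, by ring⟩ h2
          rw [hn', jacobiSym.mul_left, sq_jacobi_one hcop, mul_one, jacobiSym.at_neg_one ho,
            ZMod.χ₄_nat_three_mod_four (by omega)]
    · subst ha
      rcases Int.natAbs_eq n with h | h
      · -- n = 2 b^2
        have hn' : n = 2 * (b : ℤ) ^ 2 := by rw [h, ← hab]; push_cast; ring
        obtain ⟨j, b', hb'1, hb'2⟩ := Nat.exists_eq_pow_mul_and_not_dvd hb0 2 (by norm_num)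
        have hob : Odd b' := Nat.odd_iff.2 (by omega)
        obtain ⟨t, ht⟩ := hob
        have hsq : b' ^ 2 % 8 = 1 := by
          have h1 : b' % 8 = 1 ∨ b' % 8 = 3 ∨ b' % 8 = 5 ∨ b' % 8 = 7 := by omega
          rcases h1 with h1 | h1 | h1 | h1 <;> simp [Nat.pow_mod, h1]
        have ho : Odd (2 * b' ^ 2 + 1) := ⟨b' ^ 2, rfl⟩
        refine ⟨2 * b' ^ 2 + 1, ho, ?_⟩
        have hcop : Nat.Coprime b (2 * b' ^ 2 + 1) := by
          rw [hb'2]
          apply Nat.Coprime.mul_left
          · exact Nat.Coprime.pow_left j (Nat.coprime_two_left.2 ho)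
          · have h3 : Nat.Coprime (b' * (2 * b')) (2 * b' ^ 2 + 1) := by
              rw [show b' * (2 * b') = 2 * b' ^ 2 by ring]
              exact Nat.coprime_self_add_right.2 (Nat.coprime_one_right _)
            exact Nat.Coprime.coprime_mul_right h3
        rw [hn', jacobiSym.mul_left, sq_jacobi_one hcop, mul_one, jacobiSym.at_two ho,
          ZMod.χ₈_nat_eq_if_mod_eight]
        have h8 : (2 * b' ^ 2 + 1) % 8 = 3 := by omega
        rw [h8]
        have h2 : (2 * b' ^ 2 + 1) % 2 = 1 := by omega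
        rw [h2]; norm_num
      · -- n = -2 b^2
        have hn' : n = -2 * (b : ℤ) ^ 2 := by rw [h, ← hab]; push_cast; ring
        have h1 : 1 ≤ b ^ 2 := Nat.one_le_pow _ _ hb1
        have ho : Odd (8 * b ^ 2 - 1) := by rw [Nat.odd_iff]; omega
        refine ⟨8 * b ^ 2 - 1, ho, ?_⟩
        have hcop : Nat.Coprime b (8 * b ^ 2 - 1) := by
          have h2 : Nat.Coprime (8 * b ^ 2) (8 * b ^ 2 - 1) := by
            have h3 := Nat.coprime_self_add_right (m := 8 * b ^ 2 - 1) (n := 1)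
            have h4 : 8 * b ^ 2 - 1 + 1 = 8 * b ^ 2 := by omega
            rw [h4] at h3
            exact (h3.2 (Nat.coprime_one_right _)).symm
          exact Nat.Coprime.coprime_dvd_left ⟨8 * b, by ring⟩ h2
        rw [hn', jacobiSym.mul_left, sq_jacobi_one hcop, mul_one, jacobiSym.at_neg_two ho,
          ZMod.χ₈'_nat_eq_if_mod_eight]
        have h8 : (8 * b ^ 2 - 1) % 8 = 7 := by omega
        have h2 : (8 * b ^ 2 - 1) % 2 = 1 := by omega
        rw [h8, h2]; norm_num

end Pool.Agent.Helper919
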