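import Mathlib
import Pool.Agent.Helper919.Arith

set_option autoImplicit false

namespace Pool.Agent.Helper919

open Finset ArithmeticFunction
open scoped ArithmeticFunction.Moebius ArithmeticFunction.zeta

/-- reciprocal -/
noncomputable def invA : ArithmeticFunction ℝ := ⟨fun k => 1 / (k : ℝ), by simp⟩

theorem invA_apply (k : ℕ) : invA k = 1 / (k : ℝ) := rfl

theorem invA_mult : invA.IsMultiplicative := by
  refine ⟨by simp [invA_apply], fun {a b} _ => ?_⟩
  simp only [invA_apply]; push_cast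
  rw [one_div_mul_one_div]

theorem pos_of_mult (F : ArithmeticFunction ℝ) (hF : F.IsMultiplicative)
    (h : ∀ p k : ℕ, p.Prime → 0 < F (p ^ k)) (m : ℕ) (hm : m ≠ 0) : 0 < F m := by
  rw [IsMultiplicative.multiplicative_factorization F hF hm]
  apply Finset.prod_pos
  intro p hp
  exact h p _ (Nat.prime_of_mem_primeFactors (by simpa using hp))

theorem MQ_summable (n : ℤ) (hn : n ≠ 0) : Summable (fun k : ℕ => |MQ n k| / k) := by
  apply summable_of_ne_finset_zero (s := (qq n).divisors)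
  intro k hk
  have : MQ n k = 0 := by
    rw [MQ, pmul_apply, DQ_apply, if_neg, mul_zero]
    rintro ⟨_, h2⟩
    exact hk (Nat.mem_divisors.2 ⟨h2, (qq_pos hn).ne'⟩)
  rw [this]; simp

theorem MQ_tsum_pos (n : ℤ) (hn : n ≠ 0) : 0 < ∑' k : ℕ, MQ n k / k := by
  have h1 : ∑' k : ℕ, MQ n k / k =
      (pmul (μ : ArithmeticFunction ℝ) invA * (ζ : ArithmeticFunction ℝ)) (qq n) := by
    rw [coe_mul_zeta_apply, tsum_eq_sum (s := (qq n).divisors)]
    · refine Finset.sum_congr rfl fun k hk => ?_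
      have hk' := Nat.mem_divisors.1 hk
      have hk0 : k ≠ 0 := ne_zero_of_dvd_ne_zero hk'.2 hk'.1
      rw [MQ, pmul_apply, pmul_apply, DQ_apply, if_pos ⟨hk0, hk'.1⟩, invA_apply, mul_one]
      ring
    · intro k hk
      have : MQ n k = 0 := by
        rw [MQ, pmul_apply, DQ_apply, if_neg, mul_zero]
        rintro ⟨_, h2⟩
        exact hk (Nat.mem_divisors.2 ⟨h2, (qq_pos hn).ne'⟩)
      rw [this]; simp
  rw [h1]
  refine pos_of_mult _ ((isMultiplicative_moebius.intCast.pmul invA_mult).mul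
    isMultiplicative_zeta.natCast) ?_ _ (qq_pos hn).ne'
  intro p k hp
  rw [coe_mul_zeta_apply, Nat.sum_divisors_prime_pow hp]
  simp only [pmul_apply, mu_pp hp, invA_apply]
  rcases k with _ | k
  · simp
  · rw [Finset.sum_range_succ', Finset.sum_range_succ']
    have hz : ∑ i ∈ range k, ((if i + 1 + 1 = 0 then (1 : ℝ) else if i + 1 + 1 = 1 then -1 else 0) *
        (1 / ((p ^ (i + 1 + 1) : ℕ) : ℝ))) = 0 := by
      apply Finset.sum_eq_zero
      intro i _
      rw [if_neg (by omega), if_neg (by omega), zero_mul]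
    rw [hz]
    have hp1 : (1 : ℝ) < p := by exact_mod_cast hp.one_lt
    have h2 : 1 / (p : ℝ) < 1 := by
      rw [div_lt_one (by linarith)]
      exact hp1
    simp
    simp at h2
    linarith

theorem M2_zero_or (m : ℕ) : |M2 m| ≤ 1 ∧ (M2 m ≠ 0 → ∃ e, m = e ^ 2) := by
  rcases Nat.eq_zero_or_pos m with hm | hm
  · subst hm; simp
  rw [IsMultiplicative.multiplicative_factorization M2 M2_mult hm.ne']
  constructor
  · rw [Finsupp.prod, Finset.abs_prod]
    apply Finset.prod_le_one
    · intro p _; exact abs_nonneg _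
    · intro p hp
      rw [M2_pp (Nat.prime_of_mem_primeFactors (by simpa using hp))]
      split_ifs <;> simp
  · intro h
    rw [Finsupp.prod, Finset.prod_ne_zero_iff] at h
    refine ⟨∏ p ∈ m.factorization.support, p, ?_⟩
    conv_lhs => rw [← Nat.prod_factorization_pow_eq_self hm.ne']
    rw [Finsupp.prod, ← Finset.prod_pow]
    refine Finset.prod_congr rfl fun p hp => ?_
    have h1 := h p hp
    rw [M2_pp (Nat.prime_of_mem_primeFactors (by simpa using hp))] at h1
    have h2 : m.factorization p ≠ 0 := Finsupp.mem_support_iff.1 hp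
    rw [if_neg h2] at h1
    by_cases h3 : m.factorization p = 2
    · rw [h3]
    · rw [if_neg h3] at h1; exact absurd rfl h1

theorem Sq_abs_le (n : ℤ) (m : ℕ) : |Sq n m| ≤ 1 := by
  rw [Sq, pmul_apply, abs_mul]
  have h1 : |D0 n m| ≤ 1 := by
    rw [D0_apply]; split_ifs <;> simp
  calc |D0 n m| * |M2 m| ≤ 1 * 1 := mul_le_mul h1 (M2_zero_or m).1 (abs_nonneg _) (by norm_num)
    _ = 1 := one_mul 1

theorem Sq_eq_zero (n : ℤ) (m : ℕ) (hm : m ∉ Set.range (fun e : ℕ => e ^ 2)) : Sq n m = 0 := by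
  rw [Sq, pmul_apply]
  by_contra h
  have h2 : M2 m ≠ 0 := fun h3 => h (by rw [h3, mul_zero])
  obtain ⟨e, he⟩ := (M2_zero_or m).2 h2
  exact hm ⟨e, he.symm⟩

theorem sq_injective : Function.Injective (fun e : ℕ => e ^ 2) := by
  intro a b h
  exact Nat.pow_left_injective (by norm_num : 2 ≠ 0) h

theorem Sq_summable (n : ℤ) : Summable (fun k : ℕ => |Sq n k| / k) := by
  rw [← sq_injective.summable_iff]
  · refine Summable.of_nonneg_of_le (fun e => div_nonneg (abs_nonneg _) (Nat.cast_nonneg _))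
      (fun e => ?_) (Real.summable_one_div_nat_pow.2 (by norm_num : 1 < 2))
    simp only [Function.comp]
    push_cast
    exact div_le_div_of_nonneg_right (Sq_abs_le n _) (by positivity)
  · intro m hm
    rw [Sq_eq_zero n m hm]; simp

theorem Sq_tsum_pos (n : ℤ) : 0 < ∑' k : ℕ, Sq n k / k := by
  have hsupp : Function.support (fun k : ℕ => Sq n k / k) ⊆ Set.range (fun e : ℕ => e ^ 2) := by
    intro m hm
    by_contra h
    apply hm
    simp only
    rw [Sq_eq_zero n m h, zero_div]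
  rw [← sq_injective.tsum_eq hsupp]
  have hs1 : Summable (fun e : ℕ => (if e = 1 then (2 : ℝ) else 0) - 1 / (e : ℝ) ^ 2) := by
    refine Summable.sub ?_ (Real.summable_one_div_nat_pow.2 (by norm_num : 1 < 2))
    exact (hasSum_ite_eq 1 (2 : ℝ)).summable
  have hs2 : Summable (fun e : ℕ => Sq n (e ^ 2) / ((e ^ 2 : ℕ) : ℝ)) := by
    have h1 := (sq_injective.summable_iff (f := fun k : ℕ => |Sq n k| / k) (by
      intro m hm
      rw [Sq_eq_zero n m hm]; simp)).2 (Sq_summable n)
    refine Summable.of_norm_bounded h1 (fun e => ?_)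
    simp
  have hval : ∑' e : ℕ, ((if e = 1 then (2 : ℝ) else 0) - 1 / (e : ℝ) ^ 2) = 2 - Real.pi ^ 2 / 6 := by
    refine HasSum.tsum_eq (HasSum.sub ?_ hasSum_zeta_two)
    exact hasSum_ite_eq 1 (2 : ℝ)
  have hle : ∑' e : ℕ, ((if e = 1 then (2 : ℝ) else 0) - 1 / (e : ℝ) ^ 2) ≤
      ∑' e : ℕ, Sq n (e ^ 2) / ((e ^ 2 : ℕ) : ℝ) := by
    refine Summable.tsum_le_tsum (fun e => ?_) hs1 hs2
    rcases e with _ | _ | e
    · simp
    · have h1 : Sq n 1 = 1 := Sq_mult.map_one
      simp [h1]; norm_num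
    · rw [if_neg (by omega), zero_sub]
      have h1 := (abs_le.1 (Sq_abs_le n ((e + 1 + 1) ^ 2))).1
      push_cast
      rw [← neg_div]
      exact div_le_div_of_nonneg_right h1 (by positivity)
  rw [hval] at hle
  have hpi : Real.pi ^ 2 / 6 < 2 := by
    have h1 := Real.pi_lt_d2
    have h2 := Real.pi_pos
    nlinarith
  linarith

theorem rho1_summable (n : ℤ) (hn : n ≠ 0) : Summable (fun k : ℕ => |rho1 n k| / k) := by
  have hsum : ∀ {p : ℕ}, p.Prime → Summable (fun i : ℕ => ‖(rho n (p ^ i) : ℝ) / ((p ^ i : ℕ) : ℝ)‖) := by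
    intro p hp
    have hbase : Summable (fun i : ℕ => (4 * n.natAbs : ℝ) * (((i : ℝ) ^ 1 * (1 / 2 : ℝ) ^ i) + ((1 / 2 : ℝ) ^ i))) := by
      refine Summable.mul_left _ (Summable.add ?_ summable_geometric_two)
      exact summable_pow_mul_geometric_of_norm_lt_one 1 (by norm_num)
    refine Summable.of_nonneg_of_le (fun i => norm_nonneg _) (fun i => ?_) hbase
    rw [Real.norm_of_nonneg (by positivity)]
    have h1 : (rho n (p ^ i) : ℝ) ≤ (4 * n.natAbs : ℝ) * (i + 1) := by
      have := rho_le n hn (p ^ i)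
      rw [Nat.divisors_prime_pow hp, Finset.card_map, Finset.card_range] at this
      exact_mod_cast this
    have h2 : (2 : ℝ) ^ i ≤ ((p ^ i : ℕ) : ℝ) := by
      push_cast
      exact pow_le_pow_left₀ (by norm_num) (by exact_mod_cast hp.two_le) i
    calc (rho n (p ^ i) : ℝ) / ((p ^ i : ℕ) : ℝ) ≤ ((4 * n.natAbs : ℝ) * (i + 1)) / 2 ^ i := by
          apply div_le_div₀ (by positivity) h1 (by positivity) h2
      _ = (4 * n.natAbs : ℝ) * (((i : ℝ) ^ 1 * (1 / 2 : ℝ) ^ i) + ((1 / 2 : ℝ) ^ i)) := by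
          rw [one_div, inv_pow]; ring
  have h := (EulerProduct.summable_and_hasSum_factoredNumbers_prod_filter_prime_tsum
    (f := fun k : ℕ => (rho n k : ℝ) / (k : ℝ)) (by simp [rho_one])
    (fun {a b} hab => by
      rw [rho_mul n hab]; push_cast
      rw [mul_div_mul_comm]) hsum (qq n).primeFactors).1
  have h2 := (summable_subtype_iff_indicator (f := fun k : ℕ => ‖(rho n k : ℝ) / (k : ℝ)‖)
    (s := Nat.factoredNumbers (qq n).primeFactors)).1 h
  refine h2.congr fun k => ?_
  rw [rho1_apply, Set.indicator_apply]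
  split_ifs with hk
  · rw [Real.norm_eq_abs, abs_div, Nat.abs_cast, Nat.abs_cast]
  · simp

theorem rho1_tsum_pos (n : ℤ) (hn : n ≠ 0) : 0 < ∑' k : ℕ, rho1 n k / k := by
  have h0 : ∀ k, 0 ≤ rho1 n k := by
    intro k; rw [rho1_apply]; split_ifs <;> simp
  have hs : Summable (fun k : ℕ => rho1 n k / k) := by
    refine (rho1_summable n hn).congr fun k => ?_
    rw [abs_of_nonneg (h0 k)]
  refine hs.tsum_pos (fun k => div_nonneg (h0 k) (by positivity)) 1 ?_
  rw [rho1_mult.map_one]; simp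

end Pool.Agent.Helper919
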