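import Mathlib
import Pool.Agent.Helper919.Rho

set_option autoImplicit false

namespace Pool.Agent.Helper919

open Finset

/-- the three square conditions -/
def IsDT (n : ℤ) (a b c : ℕ) : Prop :=
  IsSquare ((a : ℤ) * b + n) ∧ IsSquare ((a : ℤ) * c + n) ∧ IsSquare ((b : ℤ) * c + n)

/-- regular triples -/
def IsReg (n : ℤ) (a b c : ℕ) : Prop := ((b : ℤ) + c - a) ^ 2 = 4 * ((b : ℤ) * c + n)

theorem gap_int (n a b c r s t : ℤ) (hn : n ≠ 0) (ha : 1 ≤ a) (hab : a < b) (hbc : b < c)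
    (hr : a * b + n = r ^ 2) (hs : a * c + n = s ^ 2) (ht : b * c + n = t ^ 2)
    (hr0 : 0 ≤ r) (hs0 : 0 ≤ s) (ht0 : 0 ≤ t)
    (hirr : (b + c - a) ^ 2 ≠ 4 * (b * c + n)) : a * b ≤ 4 * |n| ^ 3 * c := by
  set m := |n| with hm
  have hm1 : 1 ≤ m := Int.one_le_abs hn
  have hmn : n ^ 2 = m ^ 2 := (sq_abs n).symm
  have hnm : -m ≤ n := neg_abs_le n
  have hnm2 : n ≤ m := le_abs_self n
  have hc1 : 1 ≤ c := by linarith
  have hm3 : m ^ 2 ≤ m ^ 3 := pow_le_pow_right₀ hm1 (by norm_num)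
  have hm31 : m ≤ m ^ 3 := by
    have := pow_le_pow_right₀ hm1 (show 1 ≤ 3 by norm_num)
    rwa [pow_one] at this
  set e : ℤ := 2 * (a * b * c) + n * (a + b + c) - 2 * (r * s * t) with he
  have hce : c * e + n ^ 2 = (c * r - s * t) ^ 2 := by
    have : (c * r - s * t) ^ 2 = c ^ 2 * r ^ 2 - 2 * c * (r * s * t) + s ^ 2 * t ^ 2 := by ring
    rw [this, ← hr, ← hs, ← ht, he]; ring
  have hprod : e * (e + 4 * (r * s * t)) = n ^ 2 * ((b + c - a) ^ 2 - 4 * (b * c + n)) := by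
    have h1 : (r * s * t) ^ 2 = (a * b + n) * (a * c + n) * (b * c + n) := by
      rw [hr, hs, ht]; ring
    have h2 : e * (e + 4 * (r * s * t)) = (2 * (a * b * c) + n * (a + b + c)) ^ 2 - 4 * (r * s * t) ^ 2 := by
      rw [he]; ring
    rw [h2, h1]; ring
  have hrst : 0 ≤ r * s * t := mul_nonneg (mul_nonneg hr0 hs0) ht0
  have he0 : e ≠ 0 := by
    intro h0
    rw [h0, zero_mul] at hprod
    have h3 : (b + c - a) ^ 2 - 4 * (b * c + n) ≠ 0 := sub_ne_zero.2 hirr
    exact (mul_ne_zero (pow_ne_zero 2 hn) h3) hprod.symm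
  rcases lt_or_gt_of_ne he0 with hneg | hpos
  · have h1 : e ≤ -1 := by omega
    have h2 : 0 ≤ c * e + n ^ 2 := by rw [hce]; positivity
    have h3 : c ≤ n ^ 2 := by
      have : c * e ≤ c * (-1) := mul_le_mul_of_nonneg_left h1 (by linarith)
      linarith
    have h4 : c ≤ m ^ 3 := by rw [hmn] at h3; linarith
    have h5 : a * b ≤ c * c := mul_le_mul (by linarith) (by linarith) (by linarith) (by linarith)
    have h6 : c * c ≤ m ^ 3 * c := mul_le_mul_of_nonneg_right h4 (by linarith)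
    have h7 : 0 ≤ m ^ 3 * c := by positivity
    linarith
  · have h1 : 1 ≤ e := by omega
    set Δ := (b + c - a) ^ 2 - 4 * (b * c + n) with hΔ
    have h2 : e + 4 * (r * s * t) ≤ n ^ 2 * Δ := by
      rw [← hprod]; exact le_mul_of_one_le_left (by linarith) h1
    have h3 : 2 * (a * b * c) - 3 * m * c ≤ e + 4 * (r * s * t) := by
      have h4 : -(3 * m * c) ≤ n * (a + b + c) := by
        have h5 : -(m * (a + b + c)) ≤ n * (a + b + c) := by
          have h0 : 0 ≤ a + b + c := by linarith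
          have := mul_le_mul_of_nonneg_right hnm h0
          linarith
        have h6 : m * (a + b + c) ≤ m * (3 * c) := mul_le_mul_of_nonneg_left (by linarith) (by linarith)
        linarith
      have h7 : e + 4 * (r * s * t) = 2 * (a * b * c) + n * (a + b + c) + 2 * (r * s * t) := by rw [he]; ring
      rw [h7]; linarith
    have h4 : Δ ≤ c ^ 2 + 4 * m := by
      have h5 : Δ = (c - a - b) ^ 2 - 4 * (a * b) - 4 * n := by rw [hΔ]; ring
      have h6 : (c - a - b) ^ 2 ≤ c ^ 2 := by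
        apply sq_le_sq'
        · linarith
        · linarith
      have h7 : 0 ≤ a * b := mul_nonneg (by linarith) (by linarith)
      rw [h5]; linarith
    have h5 : n ^ 2 * Δ ≤ m ^ 2 * (c ^ 2 + 4 * m) := by
      rw [hmn]; exact mul_le_mul_of_nonneg_left h4 (by positivity)
    have h6 : 2 * (a * b) * c ≤ (3 * m + m ^ 2 * c + 4 * m ^ 3) * c := by
      have h7 : 4 * m ^ 3 ≤ 4 * m ^ 3 * c := le_mul_of_one_le_right (by positivity) hc1
      have h8 : 2 * (a * b * c) ≤ 3 * m * c + m ^ 2 * (c ^ 2 + 4 * m) := by linarith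
      have h9 : m ^ 2 * (c ^ 2 + 4 * m) = m ^ 2 * c * c + 4 * m ^ 3 := by ring
      have h10 : (3 * m + m ^ 2 * c + 4 * m ^ 3) * c = 3 * m * c + m ^ 2 * c * c + 4 * m ^ 3 * c := by ring
      have h11 : 2 * (a * b) * c = 2 * (a * b * c) := by ring
      rw [h10, h11]
      linarith
    have h7 : 2 * (a * b) ≤ 3 * m + m ^ 2 * c + 4 * m ^ 3 := le_of_mul_le_mul_right h6 (by linarith)
    have h8 : 3 * m ≤ 3 * m ^ 3 * c := by
      have : m ≤ m ^ 3 * c := by
        have : m ^ 3 ≤ m ^ 3 * c := le_mul_of_one_le_right (by positivity) hc1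
        linarith
      linarith
    have h9 : m ^ 2 * c ≤ m ^ 3 * c := mul_le_mul_of_nonneg_right hm3 (by linarith)
    have h10 : 4 * m ^ 3 ≤ 4 * m ^ 3 * c := le_mul_of_one_le_right (by positivity) hc1
    linarith

theorem exists_sqrt_of_isSquare {z : ℤ} (h : IsSquare z) : ∃ r : ℤ, 0 ≤ r ∧ z = r ^ 2 := by
  obtain ⟨r, hr⟩ := h
  exact ⟨|r|, abs_nonneg r, by rw [sq_abs, hr]; ring⟩

theorem gap (n : ℤ) (hn : n ≠ 0) (a b c : ℕ) (ha : 1 ≤ a) (hab : a < b) (hbc : b < c)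
    (h : IsDT n a b c) (hirr : ¬ IsReg n a b c) : a * b ≤ 4 * n.natAbs ^ 3 * c := by
  obtain ⟨h1, h2, h3⟩ := h
  obtain ⟨r, hr0, hr⟩ := exists_sqrt_of_isSquare h1
  obtain ⟨s, hs0, hs⟩ := exists_sqrt_of_isSquare h2
  obtain ⟨t, ht0, ht⟩ := exists_sqrt_of_isSquare h3
  have := gap_int n a b c r s t hn (by exact_mod_cast ha) (by exact_mod_cast hab)
    (by exact_mod_cast hbc) hr hs ht hr0 hs0 ht0 hirr
  rw [Int.abs_eq_natAbs] at this
  exact_mod_cast this

end Pool.Agent.Helper919
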