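import Mathlib
import Pool.Agent.Helper919.Gap
import Pool.Agent.Helper919.DivBound

set_option autoImplicit false

namespace Pool.Agent.Helper919

open Finset

theorem exists_nat_sqrt_of_isSquare {z : ℤ} (h : IsSquare z) : ∃ r : ℕ, z = (r : ℤ) ^ 2 := by
  obtain ⟨r, hr⟩ := h
  exact ⟨r.natAbs, by rw [hr]; simp [sq]⟩

open Classical in
noncomputable def Cset (n : ℤ) (b N : ℕ) : Finset ℕ :=
  (Ioc 0 N).filter (fun c : ℕ => IsSquare ((b : ℤ) * c + n))

open Classical in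
theorem Cset_card_le (n : ℤ) (b N : ℕ) (hb : 0 < b) :
    (Cset n b N).card ≤ rho n b * (Nat.sqrt (b * N + n.natAbs) / b + 1) := by
  have hex : ∀ c : ℕ, ∃ t : ℕ, IsSquare ((b : ℤ) * c + n) → (b : ℤ) * c + n = (t : ℤ) ^ 2 := by
    intro c
    by_cases h : IsSquare ((b : ℤ) * c + n)
    · obtain ⟨r, hr⟩ := exists_nat_sqrt_of_isSquare h
      exact ⟨r, fun _ => hr⟩
    · exact ⟨0, fun h2 => absurd h2 h⟩
  choose f hf using hex
  have h1 : (Cset n b N).card ≤ (((Finset.range b).filter (fun x : ℕ => (b : ℤ) ∣ (x : ℤ) ^ 2 - n)) ×ˢ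
      (Finset.range (Nat.sqrt (b * N + n.natAbs) / b + 1))).card := by
    refine Finset.card_le_card_of_injOn (fun c => (f c % b, f c / b)) ?_ ?_
    · intro c hc
      unfold Cset at hc
      simp only [coe_filter, Set.mem_ofPred_eq, mem_Ioc] at hc
      have h2 := hf c hc.2
      simp only [coe_product, Set.mem_prod, coe_filter, Set.mem_ofPred_eq, coe_range, Set.mem_Iio, mem_range]
      refine ⟨⟨Nat.mod_lt _ hb, ?_⟩, ?_⟩
      · have h3 : (b : ℤ) ∣ (f c : ℤ) ^ 2 - n := ⟨c, by linarith⟩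
        have h4 : (b : ℤ) ∣ (f c : ℤ) - ((f c % b : ℕ) : ℤ) := by
          rw [Int.natCast_mod]; exact Int.dvd_self_sub_emod
        have h5 : (b : ℤ) ∣ (f c : ℤ) ^ 2 - ((f c % b : ℕ) : ℤ) ^ 2 := by
          rw [sq_sub_sq]; exact h4.mul_left _
        have h6 := dvd_sub h3 h5
        have h7 : (f c : ℤ) ^ 2 - n - ((f c : ℤ) ^ 2 - ((f c % b : ℕ) : ℤ) ^ 2) = ((f c % b : ℕ) : ℤ) ^ 2 - n := by ring
        rwa [h7] at h6
      · apply Nat.lt_succ_of_le
        apply Nat.div_le_div_right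
        rw [Nat.le_sqrt]
        have h3 : (f c : ℤ) * f c ≤ b * N + n.natAbs := by
          have h4 : (b : ℤ) * c ≤ b * N := by
            exact_mod_cast Nat.mul_le_mul_left b hc.1.2
          have h5 : n ≤ n.natAbs := Int.le_natAbs
          nlinarith
        exact_mod_cast h3
    · intro c hc c' hc' hcc
      unfold Cset at hc hc'
      simp only [coe_filter, Set.mem_ofPred_eq, mem_Ioc] at hc hc'
      simp only [Prod.mk.injEq] at hcc
      have h2 := hf c hc.2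
      have h3 := hf c' hc'.2
      have h4 : f c = f c' := by
        rw [← Nat.div_add_mod (f c) b, ← Nat.div_add_mod (f c') b, hcc.1, hcc.2]
      rw [h4, ← h3] at h2
      have h5 : (b : ℤ) * c = (b : ℤ) * c' := by linarith
      have hb0 : (b : ℤ) ≠ 0 := by omega
      exact_mod_cast mul_left_cancel₀ hb0 h5
  rw [Finset.card_product, Finset.card_range] at h1
  exact h1

theorem sum_inv_sqrt_le (M : ℕ) :
    ∑ r ∈ range M, 1 / Real.sqrt ((r : ℝ) + 1) ≤ 2 * Real.sqrt M := by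
  induction M with
  | zero => simp
  | succ M ih =>
    rw [Finset.sum_range_succ]
    have h1 : 0 ≤ Real.sqrt (M : ℝ) := Real.sqrt_nonneg _
    have h2 : 0 < Real.sqrt ((M : ℝ) + 1) := Real.sqrt_pos.2 (by positivity)
    have h3 : Real.sqrt (M : ℝ) ^ 2 = M := Real.sq_sqrt (by positivity)
    have h4 : Real.sqrt ((M : ℝ) + 1) ^ 2 = M + 1 := Real.sq_sqrt (by positivity)
    have h5 : Real.sqrt (M : ℝ) ≤ Real.sqrt ((M : ℝ) + 1) := Real.sqrt_le_sqrt (by linarith)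
    have h6 : 1 / Real.sqrt ((M : ℝ) + 1) ≤ 2 * Real.sqrt ((M : ℝ) + 1) - 2 * Real.sqrt M := by
      rw [div_le_iff₀ h2]
      nlinarith
    push_cast
    linarith

/-- bound for a quotient appearing in the count -/
theorem quot_bound (m b N r : ℕ) (y : ℝ) (hy : 0 ≤ y) (hyN : y ^ 2 = (N : ℝ)) (hb : 0 < b) (hN : 1 ≤ N)
    (hr : r + 1 ≤ b * (1 + m)) :
    ((Nat.sqrt (b * N + m) / b + 1 : ℕ) : ℝ) ≤ (1 + m) * y * (1 / Real.sqrt ((r : ℝ) + 1)) + 1 := by
  have hbR : (0 : ℝ) < b := by exact_mod_cast hb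
  have hNR : (1 : ℝ) ≤ N := by exact_mod_cast hN
  have hb1 : (1 : ℝ) ≤ b := by exact_mod_cast hb
  have hmR : (0 : ℝ) ≤ m := Nat.cast_nonneg _
  push_cast
  have h1 : ((Nat.sqrt (b * N + m) / b : ℕ) : ℝ) ≤ (Nat.sqrt (b * N + m) : ℝ) / b := Nat.cast_div_le
  have h2 : (Nat.sqrt (b * N + m) : ℝ) / b ≤ (1 + m) * y * (1 / Real.sqrt ((r : ℝ) + 1)) := by
    have hz : 0 < Real.sqrt ((r : ℝ) + 1) := Real.sqrt_pos.2 (by positivity)
    have hz2 : Real.sqrt ((r : ℝ) + 1) ^ 2 = r + 1 := Real.sq_sqrt (by positivity)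
    apply le_of_sq_le_sq _ (by positivity)
    have h3 : ((Nat.sqrt (b * N + m) : ℝ)) ^ 2 ≤ b * N + m := by
      have := Nat.sqrt_le' (b * N + m)
      exact_mod_cast this
    have h4 : (b : ℝ) * N + m ≤ b * (N * (1 + m)) := by nlinarith [mul_nonneg hmR (sub_nonneg.2 hNR), mul_nonneg hmR (sub_nonneg.2 hb1), mul_le_mul hb1 hNR (by norm_num) (by linarith)]
    have h5 : ((Nat.sqrt (b * N + m) : ℝ) / b) ^ 2 ≤ N * (1 + m) / b := by
      rw [div_pow, div_le_div_iff₀ (by positivity) hbR]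
      calc (Nat.sqrt (b * N + m) : ℝ) ^ 2 * b ≤ (b * (N * (1 + m))) * b :=
            mul_le_mul_of_nonneg_right (h3.trans h4) hbR.le
        _ = N * (1 + m) * (b : ℝ) ^ 2 := by ring
    have h6 : ((1 + m) * y * (1 / Real.sqrt ((r : ℝ) + 1))) ^ 2 = (1 + m) ^ 2 * N / (r + 1) := by
      rw [mul_pow, mul_pow, div_pow, hyN, hz2]; ring
    rw [h6]
    refine h5.trans ?_
    rw [div_le_div_iff₀ hbR (by positivity)]
    have h7 : (r : ℝ) + 1 ≤ b * (1 + m) := by exact_mod_cast hr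
    calc (N : ℝ) * (1 + m) * (r + 1) ≤ N * (1 + m) * (b * (1 + m)) :=
          mul_le_mul_of_nonneg_left h7 (by positivity)
      _ = (1 + m) ^ 2 * N * b := by ring
  linarith

end Pool.Agent.Helper919
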