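import Mathlib
import Pool.Agent.Helper919.Irr

set_option autoImplicit false

namespace Pool.Agent.Helper919

open Finset

open Classical in
/-- ordered triples -/
noncomputable def tr (n : ℤ) (N : ℕ) : Finset (ℕ × ℕ × ℕ) :=
  ((Ioc 0 N) ×ˢ (Ioc 0 N) ×ˢ (Ioc 0 N)).filter
    (fun x => x.1 < x.2.1 ∧ x.2.1 < x.2.2 ∧ IsDT n x.1 x.2.1 x.2.2)

theorem mem_tr (n : ℤ) (N : ℕ) (x : ℕ × ℕ × ℕ) :
    x ∈ tr n N ↔ 0 < x.1 ∧ x.1 < x.2.1 ∧ x.2.1 < x.2.2 ∧ x.2.2 ≤ N ∧ IsDT n x.1 x.2.1 x.2.2 := by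
  unfold tr
  simp only [mem_filter, mem_product, mem_Ioc]
  constructor
  · rintro ⟨⟨⟨h1, _⟩, ⟨_, _⟩, ⟨_, h2⟩⟩, h3, h4, h5⟩
    exact ⟨h1, h3, h4, h2, h5⟩
  · rintro ⟨h1, h3, h4, h2, h5⟩
    exact ⟨⟨⟨h1, by omega⟩, ⟨by omega, by omega⟩, ⟨by omega, h2⟩⟩, h3, h4, h5⟩

open Classical in
noncomputable def trI (n : ℤ) (N : ℕ) : Finset (ℕ × ℕ × ℕ) :=
  (tr n N).filter (fun x => ¬ IsReg n x.1 x.2.1 x.2.2)

/-- index set for the pairs (r, b) -/
def Bset (n : ℤ) (N r : ℕ) : Finset ℕ :=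
  (((r : ℤ) ^ 2 - n).toNat.divisors).filter (fun b => b ≤ N ∧ r + 1 ≤ b * (1 + n.natAbs))

theorem trI_card_le (n : ℤ) (hn : n ≠ 0) (N : ℕ) :
    (trI n N).card ≤ ∑ r ∈ range (Nat.sqrt (4 * n.natAbs ^ 3 * N + n.natAbs) + 1),
      ∑ b ∈ Bset n N r, (Cset n b N).card := by
  classical
  have hex : ∀ x : ℕ × ℕ × ℕ, ∃ r : ℕ, IsSquare ((x.1 : ℤ) * x.2.1 + n) → (x.1 : ℤ) * x.2.1 + n = (r : ℤ) ^ 2 := by
    intro x
    by_cases h : IsSquare ((x.1 : ℤ) * x.2.1 + n)
    · obtain ⟨r, hr⟩ := exists_nat_sqrt_of_isSquare h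
      exact ⟨r, fun _ => hr⟩
    · exact ⟨0, fun h2 => absurd h2 h⟩
  choose f hf using hex
  have h1 : (trI n N).card ≤ ((range (Nat.sqrt (4 * n.natAbs ^ 3 * N + n.natAbs) + 1)).sigma
      (fun r => (Bset n N r).sigma (fun b => Cset n b N))).card := by
    refine Finset.card_le_card_of_injOn (fun x => ⟨f x, ⟨x.2.1, x.2.2⟩⟩) ?_ ?_
    · intro x hx
      unfold trI at hx
      simp only [coe_filter, Set.mem_ofPred_eq, mem_tr] at hx
      obtain ⟨⟨h2, h3, h4, h5, h6⟩, h7⟩ := hx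
      have h8 := hf x h6.1
      have h9 := gap n hn x.1 x.2.1 x.2.2 h2 h3 h4 h6 h7
      simp only [mem_coe, Finset.mem_sigma, mem_range]
      have hpos : 0 < (x.1 : ℤ) * x.2.1 := by
        apply mul_pos <;> omega
      refine ⟨?_, ?_, ?_⟩
      · apply Nat.lt_succ_of_le
        rw [Nat.le_sqrt]
        have h10 : (x.1 : ℤ) * x.2.1 ≤ 4 * n.natAbs ^ 3 * N := by
          have : x.1 * x.2.1 ≤ 4 * n.natAbs ^ 3 * N := h9.trans (Nat.mul_le_mul_left _ h5)
          exact_mod_cast this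
        have h11 : n ≤ n.natAbs := Int.le_natAbs
        have h12 : (f x : ℤ) * f x ≤ 4 * n.natAbs ^ 3 * N + n.natAbs := by nlinarith
        exact_mod_cast h12
      · unfold Bset
        simp only [mem_filter, Nat.mem_divisors]
        have h10 : (f x : ℤ) ^ 2 - n = (x.1 : ℤ) * x.2.1 := by linarith
        rw [h10]
        have h11 : ((x.1 : ℤ) * x.2.1).toNat = x.1 * x.2.1 := by
          have : (x.1 : ℤ) * x.2.1 = ((x.1 * x.2.1 : ℕ) : ℤ) := by push_cast; ring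
          rw [this, Int.toNat_natCast]
        rw [h11]
        refine ⟨⟨dvd_mul_left _ _, (Nat.mul_pos h2 (by omega)).ne'⟩, by omega, ?_⟩
        -- r < b * (1 + |n|)
        have h12 : (f x : ℤ) < x.2.1 * (1 + n.natAbs) := by
          apply lt_of_pow_lt_pow_left₀ 2 (by positivity)
          have h13 : (f x : ℤ) ^ 2 = x.1 * x.2.1 + n := h8.symm
          rw [h13]
          have h14 : n ≤ n.natAbs := Int.le_natAbs
          have h15 : (0 : ℤ) ≤ n.natAbs := by positivity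
          have h16 : (1 : ℤ) ≤ x.2.1 := by omega
          have h17 : (x.1 : ℤ) * x.2.1 < x.2.1 * x.2.1 := by
            apply mul_lt_mul_of_pos_right <;> omega
          have h18 : (x.2.1 : ℤ) * x.2.1 + n.natAbs ≤ (x.2.1 * (1 + n.natAbs)) ^ 2 := by
            have h19 : (1 : ℤ) ≤ x.2.1 * x.2.1 := by nlinarith
            have h20 : ((x.2.1 : ℤ) * (1 + n.natAbs)) ^ 2 = (x.2.1 * x.2.1) * (1 + 2 * n.natAbs + n.natAbs ^ 2) := by ring
            rw [h20]
            have h21 : (n.natAbs : ℤ) ≤ (x.2.1 * x.2.1) * n.natAbs := le_mul_of_one_le_left h15 h19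
            have h22 : 0 ≤ ((x.2.1 : ℤ) * x.2.1) * n.natAbs ^ 2 := by positivity
            nlinarith
          linarith
        have h13 : f x < x.2.1 * (1 + n.natAbs) := by exact_mod_cast h12
        omega
      · unfold Cset
        simp only [mem_filter, mem_Ioc]
        exact ⟨⟨by omega, h5⟩, h6.2.2⟩
    · intro x hx y hy hxy
      unfold trI at hx hy
      simp only [coe_filter, Set.mem_ofPred_eq, mem_tr] at hx hy
      obtain ⟨⟨h2, h3, h4, h5, h6⟩, h7⟩ := hx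
      obtain ⟨⟨h2', h3', h4', h5', h6'⟩, h7'⟩ := hy
      have h8 := hf x h6.1
      have h8' := hf y h6'.1
      simp only [Sigma.mk.injEq] at hxy
      obtain ⟨h9, h10⟩ := hxy
      have h11 := eq_of_heq h10
      simp only [Sigma.mk.injEq, heq_eq_eq] at h11
      obtain ⟨h12, h13⟩ := h11
      rw [h9, ← h8', h12] at h8
      have h14 : (x.1 : ℤ) * y.2.1 = (y.1 : ℤ) * y.2.1 := by linarith
      have h15 : (y.2.1 : ℤ) ≠ 0 := by omega
      have h16 : (x.1 : ℤ) = y.1 := mul_right_cancel₀ h15 h14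
      have h17 : x.1 = y.1 := by exact_mod_cast h16
      exact Prod.ext h17 (Prod.ext h12 h13)
  rw [Finset.card_sigma] at h1
  simp_rw [Finset.card_sigma] at h1
  exact h1

theorem div_bound_real (C0 : ℕ) (hC0 : 1 ≤ C0) (hdiv : ∀ m : ℕ, m ≠ 0 → (m.divisors.card) ^ 16 ≤ C0 * m)
    (m M : ℕ) (A : ℕ) (hA : 1 ≤ A) (y : ℝ) (hy : 0 ≤ y) (hyM : y ^ 16 = (M : ℝ)) (hm : m ≤ A * M) :
    (m.divisors.card : ℝ) ≤ (C0 * A) * y := by
  rcases Nat.eq_zero_or_pos m with h0 | hpos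
  · subst h0; simp; positivity
  · have h1 := hdiv m hpos.ne'
    have hC : (1 : ℝ) ≤ C0 := by exact_mod_cast hC0
    have hAR : (1 : ℝ) ≤ A := by exact_mod_cast hA
    apply le_of_pow_le_pow_left₀ (n := 16) (by norm_num) (by positivity)
    have h2 : ((m.divisors.card : ℝ)) ^ 16 ≤ C0 * (A * M) := by
      have : (m.divisors.card) ^ 16 ≤ C0 * (A * M) := h1.trans (Nat.mul_le_mul_left _ hm)
      exact_mod_cast this
    refine h2.trans ?_
    rw [mul_pow, hyM]
    have h3 : (C0 * A : ℝ) ≤ (C0 * A : ℝ) ^ 16 := le_self_pow₀ (by nlinarith) (by norm_num)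
    have h4 : (0 : ℝ) ≤ M := Nat.cast_nonneg _
    nlinarith

theorem trI_bound (n : ℤ) (hn : n ≠ 0) :
    ∃ C : ℝ, 0 ≤ C ∧ ∀ (N : ℕ) (y : ℝ), 1 ≤ N → 1 ≤ y → y ^ 16 = (N : ℝ) →
      ((trI n N).card : ℝ) ≤ C * y ^ 14 := by
  obtain ⟨C0, hC0, hdiv⟩ := card_divisors_pow_le 16
  set m := n.natAbs with hm
  have hm1 : 1 ≤ m := Int.natAbs_pos.2 hn
  set K := 4 * m ^ 3 + m with hK
  have hK1 : 1 ≤ K := by omega
  set A := K + m with hA
  -- constants
  set c1 : ℝ := (C0 * A : ℝ) with hc1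
  set c2 : ℝ := (4 * m : ℝ) * (C0 * (1 : ℕ) : ℝ) with hc2
  have hc1' : 0 ≤ c1 := by positivity
  have hc2' : 0 ≤ c2 := by positivity
  refine ⟨c1 * c2 * ((1 + m) * (2 * (K + 1)) + (K + 1)), by positivity, fun N y hN hy hyN => ?_⟩
  have hy0 : 0 ≤ y := by linarith
  have hNR : (1 : ℝ) ≤ N := by exact_mod_cast hN
  have h1 := trI_card_le n hn N
  set R := Nat.sqrt (4 * n.natAbs ^ 3 * N + n.natAbs) with hR
  have hRsq : R ^ 2 ≤ K * N := by
    have h2 := Nat.sqrt_le' (4 * n.natAbs ^ 3 * N + n.natAbs)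
    have h3 : 4 * n.natAbs ^ 3 * N + n.natAbs ≤ K * N := by
      rw [hK, ← hm]; nlinarith
    exact h2.trans h3
  have hRy : (R : ℝ) ≤ K * y ^ 8 := by
    apply le_of_pow_le_pow_left₀ (n := 2) (by norm_num) (by positivity)
    have h2 : ((R : ℝ)) ^ 2 ≤ K * N := by exact_mod_cast hRsq
    refine h2.trans ?_
    rw [mul_pow, ← pow_mul, hyN]
    have h3 : (1 : ℝ) ≤ K := by exact_mod_cast hK1
    nlinarith
  have hR1 : (R : ℝ) + 1 ≤ (K + 1) * y ^ 8 := by
    have : 1 ≤ y ^ 8 := one_le_pow₀ hy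
    nlinarith
  have hsqR : Real.sqrt ((R + 1 : ℕ) : ℝ) ≤ (K + 1) * y ^ 4 := by
    rw [Real.sqrt_le_left (by positivity)]
    push_cast
    refine hR1.trans ?_
    rw [mul_pow, ← pow_mul]
    have h3 : (1 : ℝ) ≤ K := by exact_mod_cast hK1
    have h4 : 0 ≤ y ^ (4 * 2) := by positivity
    have h5 : ((K : ℝ) + 1) ≤ ((K : ℝ) + 1) ^ 2 := by nlinarith
    exact mul_le_mul_of_nonneg_right h5 h4
  have h2 : ((trI n N).card : ℝ) ≤ ∑ r ∈ range (R + 1), ∑ b ∈ Bset n N r, ((Cset n b N).card : ℝ) := by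
    exact_mod_cast h1
  refine h2.trans ?_
  have h3 : ∀ r ∈ range (R + 1), ∑ b ∈ Bset n N r, ((Cset n b N).card : ℝ) ≤
      (c1 * y) * ((c2 * y) * ((1 + m) * y ^ 8 * (1 / Real.sqrt ((r : ℝ) + 1)) + 1)) := by
    intro r hr
    have hr' : r ≤ R := Nat.lt_succ_iff.1 (mem_range.1 hr)
    have hterm : ∀ b ∈ Bset n N r, ((Cset n b N).card : ℝ) ≤
        (c2 * y) * ((1 + m) * y ^ 8 * (1 / Real.sqrt ((r : ℝ) + 1)) + 1) := by
      intro b hb
      unfold Bset at hb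
      simp only [mem_filter, Nat.mem_divisors] at hb
      obtain ⟨⟨hb1, hb2⟩, hb3, hb4⟩ := hb
      have hbpos : 0 < b := Nat.pos_of_ne_zero (by rintro rfl; simp at hb1; simp [hb1] at hb2)
      have h4 := Cset_card_le n b N hbpos
      have h5 : ((Cset n b N).card : ℝ) ≤ (rho n b : ℝ) * ((Nat.sqrt (b * N + n.natAbs) / b + 1 : ℕ) : ℝ) := by
        exact_mod_cast h4
      have h6 : (rho n b : ℝ) ≤ c2 * y := by
        have h7 : (rho n b : ℝ) ≤ (4 * m : ℝ) * (b.divisors.card : ℝ) := by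
          exact_mod_cast rho_le n hn b
        have h8 := div_bound_real C0 hC0 hdiv b N 1 le_rfl y hy0 hyN (by omega)
        rw [hc2]
        calc (rho n b : ℝ) ≤ (4 * m : ℝ) * (b.divisors.card : ℝ) := h7
          _ ≤ (4 * m : ℝ) * ((C0 * (1 : ℕ)) * y) := mul_le_mul_of_nonneg_left h8 (by positivity)
          _ = _ := by ring
      have h7 := quot_bound m b N r (y ^ 8) (by positivity) (by rw [← pow_mul]; exact hyN) hbpos hN hb4
      calc ((Cset n b N).card : ℝ) ≤ (rho n b : ℝ) * ((Nat.sqrt (b * N + n.natAbs) / b + 1 : ℕ) : ℝ) := h5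
        _ ≤ (c2 * y) * ((1 + m) * y ^ 8 * (1 / Real.sqrt ((r : ℝ) + 1)) + 1) :=
            mul_le_mul h6 h7 (by positivity) (by positivity)
    calc ∑ b ∈ Bset n N r, ((Cset n b N).card : ℝ)
        ≤ ∑ b ∈ Bset n N r, (c2 * y) * ((1 + m) * y ^ 8 * (1 / Real.sqrt ((r : ℝ) + 1)) + 1) :=
          Finset.sum_le_sum hterm
      _ = ((Bset n N r).card : ℝ) * ((c2 * y) * ((1 + m) * y ^ 8 * (1 / Real.sqrt ((r : ℝ) + 1)) + 1)) := by
          rw [Finset.sum_const, nsmul_eq_mul]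
      _ ≤ (c1 * y) * ((c2 * y) * ((1 + m) * y ^ 8 * (1 / Real.sqrt ((r : ℝ) + 1)) + 1)) := by
          apply mul_le_mul_of_nonneg_right _ (by positivity)
          have h4 : (Bset n N r).card ≤ (((r : ℤ) ^ 2 - n).toNat.divisors).card :=
            Finset.card_le_card (Finset.filter_subset _ _)
          have h5 : ((r : ℤ) ^ 2 - n).toNat ≤ A * N := by
            have h6 : (r : ℤ) ^ 2 - n ≤ ((A * N : ℕ) : ℤ) := by
              have h7 : r ^ 2 ≤ K * N := (Nat.pow_le_pow_left hr' 2).trans hRsq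
              have h8 : (r : ℤ) ^ 2 ≤ K * N := by exact_mod_cast h7
              have h9 : -n ≤ (m : ℤ) := by rw [hm]; omega
              have h10 : (m : ℤ) ≤ m * N := by
                have : m * 1 ≤ m * N := Nat.mul_le_mul_left m hN
                rw [mul_one] at this
                exact_mod_cast this
              rw [hA]; push_cast
              linarith
            exact Int.toNat_le.2 h6
          have h6 := div_bound_real C0 hC0 hdiv _ N A (by omega) y hy0 hyN h5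
          calc ((Bset n N r).card : ℝ) ≤ ((((r : ℤ) ^ 2 - n).toNat.divisors).card : ℝ) := by exact_mod_cast h4
            _ ≤ c1 * y := h6
  calc ∑ r ∈ range (R + 1), ∑ b ∈ Bset n N r, ((Cset n b N).card : ℝ)
      ≤ ∑ r ∈ range (R + 1), (c1 * y) * ((c2 * y) * ((1 + m) * y ^ 8 * (1 / Real.sqrt ((r : ℝ) + 1)) + 1)) :=
        Finset.sum_le_sum h3
    _ = (c1 * y) * ((c2 * y) * ((1 + m) * y ^ 8 * (∑ r ∈ range (R + 1), 1 / Real.sqrt ((r : ℝ) + 1)) + (R + 1))) := by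
        rw [← Finset.mul_sum, ← Finset.mul_sum, Finset.sum_add_distrib, ← Finset.mul_sum]
        simp
    _ ≤ (c1 * y) * ((c2 * y) * ((1 + m) * y ^ 8 * (2 * ((K + 1) * y ^ 4)) + (K + 1) * y ^ 8)) := by
        apply mul_le_mul_of_nonneg_left _ (by positivity)
        apply mul_le_mul_of_nonneg_left _ (by positivity)
        apply add_le_add _ hR1
        apply mul_le_mul_of_nonneg_left _ (by positivity)
        exact (sum_inv_sqrt_le (R + 1)).trans (mul_le_mul_of_nonneg_left hsqR (by norm_num))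
    _ ≤ c1 * c2 * ((1 + m) * (2 * (K + 1)) + (K + 1)) * y ^ 14 := by
        have h5 : y ^ 8 ≤ y ^ 12 := pow_le_pow_right₀ hy (by norm_num)
        have h6 : (c1 * y) * ((c2 * y) * ((1 + m) * y ^ 8 * (2 * ((K + 1) * y ^ 4)) + (K + 1) * y ^ 8))
            ≤ (c1 * y) * ((c2 * y) * ((1 + m) * y ^ 8 * (2 * ((K + 1) * y ^ 4)) + (K + 1) * y ^ 12)) := by
          apply mul_le_mul_of_nonneg_left _ (by positivity)
          apply mul_le_mul_of_nonneg_left _ (by positivity)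
          apply add_le_add le_rfl
          exact mul_le_mul_of_nonneg_left h5 (by positivity)
        refine h6.trans (le_of_eq ?_)
        ring

end Pool.Agent.Helper919
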