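import Mathlib
import Pool.Agent.Helper919.Gap

set_option autoImplicit false

namespace Pool.Agent.Helper919

open Finset

/-- residues `t` in the upper half -/
def PP (n : ℤ) (c : ℕ) : Finset ℕ :=
  (Finset.range c).filter (fun t : ℕ => c < 2 * t ∧ (c : ℤ) ∣ (t : ℤ) ^ 2 - n)

def PP' (n : ℤ) (c : ℕ) : Finset ℕ := (PP n c).filter (fun t : ℕ => n < ((c : ℤ) - t) ^ 2)

open Classical in
/-- regular triples with largest element `c` -/
noncomputable def regc (n : ℤ) (c : ℕ) : Finset (ℕ × ℕ) :=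
  ((Ioc 0 c) ×ˢ (Ioc 0 c)).filter (fun x => x.1 < x.2 ∧ x.2 < c ∧ IsDT n x.1 x.2 c ∧ IsReg n x.1 x.2 c)

theorem mem_regc (n : ℤ) (c : ℕ) (x : ℕ × ℕ) :
    x ∈ regc n c ↔ 0 < x.1 ∧ x.1 < x.2 ∧ x.2 < c ∧ IsDT n x.1 x.2 c ∧ IsReg n x.1 x.2 c := by
  unfold regc
  simp only [mem_filter, mem_product, mem_Ioc]
  constructor
  · rintro ⟨⟨⟨h1, h2⟩, ⟨h3, h4⟩⟩, h5, h6, h7, h8⟩
    exact ⟨h1, h5, h6, h7, h8⟩
  · rintro ⟨h1, h5, h6, h7, h8⟩
    exact ⟨⟨⟨h1, by omega⟩, ⟨by omega, by omega⟩⟩, h5, h6, h7, h8⟩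

theorem no_half (n : ℤ) (hn : n ≠ 0) (c t : ℕ) (hc : 2 * n.natAbs < c) (h2 : 2 * t = c)
    (h : (c : ℤ) ∣ (t : ℤ) ^ 2 - n) : False := by
  have h3 : (t : ℤ) ∣ n := by
    have h4 : (t : ℤ) ∣ (c : ℤ) := ⟨2, by rw [← h2]; push_cast; ring⟩
    have h5 : (t : ℤ) ∣ (t : ℤ) ^ 2 - n := h4.trans h
    have h6 : (t : ℤ) ∣ (t : ℤ) ^ 2 := dvd_pow_self _ (by norm_num)
    have h7 := dvd_sub h6 h5
    rwa [sub_sub_cancel] at h7
  have h4 := Nat.le_of_dvd (Int.natAbs_pos.2 hn) (Int.natCast_dvd.1 h3)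
  omega

theorem no_zero (n : ℤ) (hn : n ≠ 0) (c : ℕ) (hc : 2 * n.natAbs < c)
    (h : (c : ℤ) ∣ ((0 : ℕ) : ℤ) ^ 2 - n) : False := by
  have h3 : (c : ℤ) ∣ n := by
    have : ((0 : ℕ) : ℤ) ^ 2 - n = -n := by simp
    rw [this] at h
    exact (dvd_neg).1 h
  have h4 := Nat.le_of_dvd (Int.natAbs_pos.2 hn) (Int.natCast_dvd.1 h3)
  omega

theorem rho_eq_two_PP (n : ℤ) (hn : n ≠ 0) (c : ℕ) (hc : 2 * n.natAbs < c) :
    rho n c = 2 * (PP n c).card := by
  have h1 : rho n c = ((Finset.range c).filter (fun t : ℕ => ¬ c < 2 * t ∧ (c : ℤ) ∣ (t : ℤ) ^ 2 - n)).card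
      + (PP n c).card := by
    unfold rho PP
    rw [← Finset.card_filter_add_card_filter_not (s := (Finset.range c).filter
      (fun x : ℕ => (c : ℤ) ∣ (x : ℤ) ^ 2 - n)) (fun t => ¬ c < 2 * t)]
    congr 2
    · ext t; simp only [mem_filter]; tauto
    · ext t; simp only [mem_filter, not_not]; tauto
  have h2 : ((Finset.range c).filter (fun t : ℕ => ¬ c < 2 * t ∧ (c : ℤ) ∣ (t : ℤ) ^ 2 - n)).card
      = (PP n c).card := by
    unfold PP
    refine Finset.card_bij' (fun t _ => c - t) (fun t _ => c - t) ?_ ?_ ?_ ?_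
    · intro t ht
      simp only [mem_filter, mem_range] at ht ⊢
      obtain ⟨h3, h4, h5⟩ := ht
      have ht0 : t ≠ 0 := by
        rintro rfl
        exact no_zero n hn c hc h5
      have ht2 : 2 * t ≠ c := fun h => no_half n hn c t hc h h5
      refine ⟨by omega, by omega, ?_⟩
      rw [Nat.cast_sub h3.le]
      have h6 : ((c : ℤ) - t) ^ 2 - n = (c : ℤ) * (c - 2 * t) + ((t : ℤ) ^ 2 - n) := by ring
      rw [h6]
      exact dvd_add (dvd_mul_right _ _) h5
    · intro t ht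
      simp only [mem_filter, mem_range] at ht ⊢
      obtain ⟨h3, h4, h5⟩ := ht
      refine ⟨by omega, by omega, ?_⟩
      rw [Nat.cast_sub h3.le]
      have h6 : ((c : ℤ) - t) ^ 2 - n = (c : ℤ) * (c - 2 * t) + ((t : ℤ) ^ 2 - n) := by ring
      rw [h6]
      exact dvd_add (dvd_mul_right _ _) h5
    · intro t ht
      simp only [mem_filter, mem_range] at ht
      omega
    · intro t ht
      simp only [mem_filter, mem_range] at ht
      omega
  rw [h1, h2]; ring

theorem PP'_card_bounds (n : ℤ) (c : ℕ) (hc : 2 * n.natAbs < c) :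
    (PP' n c).card ≤ (PP n c).card ∧ (PP n c).card ≤ (PP' n c).card + 1 ∧
      (¬ IsSquare n → (PP' n c).card = (PP n c).card) := by
  have hkey : ∀ t ∈ PP n c, ¬ n < ((c : ℤ) - t) ^ 2 → ((c : ℤ) - t) ^ 2 = n := by
    intro t ht h
    unfold PP at ht
    simp only [mem_filter, mem_range] at ht
    obtain ⟨h3, h4, h5⟩ := ht
    have h6 : (c : ℤ) ∣ ((c : ℤ) - t) ^ 2 - n := by
      have h6 : ((c : ℤ) - t) ^ 2 - n = (c : ℤ) * (c - 2 * t) + ((t : ℤ) ^ 2 - n) := by ring
      rw [h6]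
      exact dvd_add (dvd_mul_right _ _) h5
    have h7 : |((c : ℤ) - t) ^ 2 - n| < c := by
      have h8 : 0 ≤ ((c : ℤ) - t) ^ 2 := sq_nonneg _
      rw [not_lt] at h
      rw [abs_lt]
      constructor <;> omega
    have h8 := Int.eq_zero_of_abs_lt_dvd h6 h7
    linarith
  have hsub : PP' n c ⊆ PP n c := Finset.filter_subset _ _
  refine ⟨Finset.card_le_card hsub, ?_, ?_⟩
  · have h1 : (PP n c \ PP' n c).card ≤ 1 := by
      rw [Finset.card_le_one]
      intro t ht u hu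
      unfold PP' at ht hu
      simp only [mem_sdiff, mem_filter, not_and] at ht hu
      have h2 := hkey t ht.1 (ht.2 ht.1)
      have h3 := hkey u hu.1 (hu.2 hu.1)
      have htc : t < c := by
        have := ht.1; unfold PP at this; simp only [mem_filter, mem_range] at this; exact this.1
      have huc : u < c := by
        have := hu.1; unfold PP at this; simp only [mem_filter, mem_range] at this; exact this.1
      have h4 : ((c : ℤ) - t) ^ 2 = ((c : ℤ) - u) ^ 2 := by rw [h2, h3]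
      have h5 : (c : ℤ) - t = (c : ℤ) - u :=
        (pow_left_inj₀ (by omega) (by omega) (by norm_num)).1 h4
      omega
    have h2 := Finset.card_sdiff_add_card_eq_card hsub
    omega
  · intro hsq
    congr 1
    unfold PP'
    apply Finset.filter_true_of_mem
    intro t ht
    by_contra h
    apply hsq
    rw [← hkey t ht h]
    exact ⟨(c : ℤ) - t, by ring⟩

theorem regc_card (n : ℤ) (hn : n ≠ 0) (c : ℕ) (hc : 2 * n.natAbs < c) :
    (regc n c).card = (PP' n c).card := by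
  refine Finset.card_bij (fun x _ => (x.2 + c - x.1) / 2) ?_ ?_ ?_
  · intro x hx
    rw [mem_regc] at hx
    obtain ⟨h1, h2, h3, h4, h5⟩ := hx
    obtain ⟨q, hq0, hq⟩ := exists_sqrt_of_isSquare h4.2.2
    have h6 : (x.2 : ℤ) + c - x.1 = 2 * q := by
      unfold IsReg at h5
      rw [hq] at h5
      have h7 : ((x.2 : ℤ) + c - x.1) ^ 2 = (2 * q) ^ 2 := by rw [h5]; ring
      exact (pow_left_inj₀ (by omega) (by omega) (by norm_num)).1 h7
    have h7 : (((x.2 + c - x.1) / 2 : ℕ) : ℤ) = q := by omega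
    unfold PP' PP
    simp only [mem_filter, mem_range]
    rw [h7]
    refine ⟨⟨by omega, by omega, ?_⟩, ?_⟩
    · rw [← hq]; exact ⟨x.2, by ring⟩
    · have h8 : ((c : ℤ) - q) ^ 2 = (x.1 : ℤ) * c + n := by
        have h9 : q ^ 2 = (x.2 : ℤ) * c + n := hq.symm
        have h10 : (x.1 : ℤ) = x.2 + c - 2 * q := by linarith
        rw [h10]; linear_combination h9
      rw [h8]
      have h9 : 0 < (x.1 : ℤ) * c := by
        apply mul_pos
        · exact_mod_cast h1
        · omega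
      linarith
  · intro x hx y hy hxy
    rw [mem_regc] at hx hy
    obtain ⟨h1, h2, h3, h4, h5⟩ := hx
    obtain ⟨h1', h2', h3', h4', h5'⟩ := hy
    obtain ⟨q, hq0, hq⟩ := exists_sqrt_of_isSquare h4.2.2
    obtain ⟨q', hq0', hq'⟩ := exists_sqrt_of_isSquare h4'.2.2
    have h6 : (x.2 : ℤ) + c - x.1 = 2 * q := by
      unfold IsReg at h5
      rw [hq] at h5
      have h7 : ((x.2 : ℤ) + c - x.1) ^ 2 = (2 * q) ^ 2 := by rw [h5]; ring
      exact (pow_left_inj₀ (by omega) (by omega) (by norm_num)).1 h7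
    have h6' : (y.2 : ℤ) + c - y.1 = 2 * q' := by
      unfold IsReg at h5'
      rw [hq'] at h5'
      have h7 : ((y.2 : ℤ) + c - y.1) ^ 2 = (2 * q') ^ 2 := by rw [h5']; ring
      exact (pow_left_inj₀ (by omega) (by omega) (by norm_num)).1 h7
    have hqq : q = q' := by
      omega
    subst hqq
    have h8 : (x.2 : ℤ) * c = (y.2 : ℤ) * c := by linarith
    have hc0 : (c : ℤ) ≠ 0 := by omega
    have h9 : (x.2 : ℤ) = y.2 := mul_right_cancel₀ hc0 h8
    apply Prod.ext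
    · omega
    · omega
  · intro t ht
    unfold PP' PP at ht
    simp only [mem_filter, mem_range] at ht
    obtain ⟨⟨h1, h2, ⟨b, hb⟩⟩, h4⟩ := ht
    have hcpos : (0 : ℤ) < c := by omega
    -- a = b + c - 2 t
    have ha : ((c : ℤ) - t) ^ 2 - n = (c : ℤ) * (b + c - 2 * t) := by linear_combination hb
    have hapos : 0 < b + c - 2 * t := by
      by_contra h
      have : (c : ℤ) * (b + c - 2 * t) ≤ 0 := mul_nonpos_of_nonneg_of_nonpos hcpos.le (not_lt.1 h)
      linarith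
    have hbc : b < c := by
      by_contra h
      have h5 : (c : ℤ) * c ≤ (c : ℤ) * b := mul_le_mul_of_nonneg_left (not_lt.1 h) hcpos.le
      have h6 : (t : ℤ) ≤ c - 1 := by omega
      have h7 : (t : ℤ) ^ 2 ≤ ((c : ℤ) - 1) ^ 2 := pow_le_pow_left₀ (by omega) h6 2
      have h8 : ((c : ℤ) - 1) ^ 2 = c * c - 2 * c + 1 := by ring
      omega
    obtain ⟨b', hb'⟩ : ∃ b' : ℕ, (b' : ℤ) = b := ⟨b.toNat, Int.toNat_of_nonneg (by omega)⟩
    obtain ⟨a', ha'⟩ : ∃ a' : ℕ, (a' : ℤ) = b + c - 2 * t := ⟨(b + c - 2 * t).toNat, Int.toNat_of_nonneg hapos.le⟩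
    refine ⟨(a', b'), ?_, ?_⟩
    · rw [mem_regc]
      refine ⟨by simp only; omega, by simp only; omega, by simp only; omega, ⟨?_, ?_, ?_⟩, ?_⟩
      · simp only
        rw [ha', hb']
        exact ⟨(t : ℤ) - b, by linear_combination -hb⟩
      · simp only
        rw [ha']
        exact ⟨(c : ℤ) - t, by linear_combination -ha⟩
      · simp only
        rw [hb']
        exact ⟨t, by linear_combination -hb⟩
      · unfold IsReg
        rw [ha', hb']
        linear_combination 4 * hb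
    · omega

end Pool.Agent.Helper919
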