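import Mathlib

set_option autoImplicit false

namespace Pool.Agent.Helper919

open Finset Filter Topology ArithmeticFunction

/-- Admissible weight functions: comparison functions for summatory functions. -/
structure IsWt (w : ℕ → ℝ) : Prop where
  zero : w 0 = 0
  pos : ∀ N, 1 ≤ N → 0 < w N
  le : ∀ N k, 1 ≤ k → w (N / k) ≤ w N / k
  lim : ∀ k, 1 ≤ k → Tendsto (fun N => w (N / k) / w N) atTop (𝓝 (1 / (k : ℝ)))

theorem IsWt.nonneg {w : ℕ → ℝ} (hw : IsWt w) (N : ℕ) : 0 ≤ w N := by
  rcases Nat.eq_zero_or_pos N with h | h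
  · rw [h, hw.zero]
  · exact (hw.pos N h).le

theorem tendsto_div_atTop (k : ℕ) (hk : 1 ≤ k) : Tendsto (fun N : ℕ => N / k) atTop atTop := by
  refine tendsto_atTop.2 fun b => ?_
  filter_upwards [eventually_ge_atTop (b * k)] with N hN
  exact (Nat.le_div_iff_mul_le hk).2 hN

theorem bound_of_tendsto {w : ℕ → ℝ} (hw : IsWt w) (A : ℕ → ℝ) (hA0 : A 0 = 0) {L : ℝ}
    (hA : Tendsto (fun N => A N / w N) atTop (𝓝 L)) :
    ∃ C : ℝ, 0 ≤ C ∧ ∀ N, |A N| ≤ C * w N := by
  obtain ⟨C, hC⟩ := (Metric.isBounded_range_of_tendsto _ hA).exists_norm_le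
  have hC0 : 0 ≤ C := le_trans (norm_nonneg _) (hC _ (Set.mem_range_self 0))
  refine ⟨C, hC0, fun N => ?_⟩
  rcases Nat.eq_zero_or_pos N with h | h
  · simp [h, hA0, hw.zero]
  · have h1 := hC _ (Set.mem_range_self N)
    have hp := hw.pos N h
    simp only [Real.norm_eq_abs, abs_div, abs_of_pos hp] at h1
    rwa [div_le_iff₀ hp] at h1

theorem stage {w : ℕ → ℝ} (hw : IsWt w) (G a : ArithmeticFunction ℝ) {L : ℝ}
    (hA : Tendsto (fun N => (∑ m ∈ Ioc 0 N, a m) / w N) atTop (𝓝 L))
    (hG : Summable (fun k : ℕ => |G k| / k)) :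
    Tendsto (fun N => (∑ b ∈ Ioc 0 N, (G * a) b) / w N) atTop
      (𝓝 (L * ∑' k : ℕ, G k / k)) := by
  obtain ⟨C, hC0, hC⟩ := bound_of_tendsto hw (fun N => ∑ m ∈ Ioc 0 N, a m) (by simp) hA
  have key : ∀ N : ℕ, (∑ b ∈ Ioc 0 N, (G * a) b) / w N
      = ∑' k : ℕ, G k * (∑ m ∈ Ioc 0 (N / k), a m) / w N := by
    intro N
    rw [ArithmeticFunction.sum_Ioc_mul_eq_sum_sum, Finset.sum_div]
    symm
    apply tsum_eq_sum
    intro k hk
    simp only [mem_Ioc, not_and_or, not_lt, not_le, Nat.le_zero] at hk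
    rcases hk with hk | hk
    · simp [hk]
    · simp [Nat.div_eq_of_lt hk]
  simp_rw [key]
  have hlim : L * ∑' k : ℕ, G k / k = ∑' k : ℕ, G k * L * (1 / (k : ℝ)) := by
    rw [← tsum_mul_left]
    congr 1
    ext k
    ring
  rw [hlim]
  refine tendsto_tsum_of_dominated_convergence (bound := fun k : ℕ => C * (|G k| / k)) (hG.mul_left C) ?_ ?_
  · intro k
    rcases Nat.eq_zero_or_pos k with hk | hk
    · simp [hk]
    · have h1 : Tendsto (fun N : ℕ => (∑ m ∈ Ioc 0 (N / k), a m) / w (N / k)) atTop (𝓝 L) :=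
        hA.comp (tendsto_div_atTop k hk)
      have h2 := (h1.const_mul (G k)).mul (hw.lim k hk)
      refine h2.congr' ?_
      filter_upwards [eventually_ge_atTop k] with N hN
      have h3 : 0 < w (N / k) := hw.pos _ (Nat.div_pos hN hk)
      have h4 : 0 < w N := hw.pos _ (hk.trans_le hN)
      field_simp
  · filter_upwards [eventually_ge_atTop 1] with N hN k
    have h4 : 0 < w N := hw.pos _ hN
    rcases Nat.eq_zero_or_pos k with hk | hk
    · simp [hk]
    · rw [Real.norm_eq_abs, abs_div, abs_mul, abs_of_pos h4]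
      have h5 : |∑ m ∈ Ioc 0 (N / k), a m| ≤ C * (w N / k) :=
        (hC (N / k)).trans (mul_le_mul_of_nonneg_left (hw.le N k hk) hC0)
      rw [div_le_iff₀ h4]
      calc |G k| * |∑ m ∈ Ioc 0 (N / k), a m| ≤ |G k| * (C * (w N / k)) :=
            mul_le_mul_of_nonneg_left h5 (abs_nonneg _)
        _ = C * (|G k| / k) * w N := by ring

theorem isWt_id : IsWt (fun N : ℕ => (N : ℝ)) where
  zero := by simp
  pos := fun N hN => by exact_mod_cast hN
  le := fun N k hk => Nat.cast_div_le
  lim := fun k hk => by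
    have hk' : (0 : ℝ) < k := by exact_mod_cast hk
    have h1 : Tendsto (fun N : ℕ => (N : ℝ)) atTop atTop := tendsto_natCast_atTop_atTop
    have h2 := (tendsto_nat_floor_mul_div_atTop (R := ℝ) (a := 1 / (k : ℝ)) (by positivity)).comp h1
    refine h2.congr ?_
    intro N
    simp only [Function.comp]
    congr 2
    rw [one_div, mul_comm, ← div_eq_mul_inv]
    exact Nat.floor_div_eq_div N k

theorem isWt_log : IsWt (fun N : ℕ => (N : ℝ) * (1 + Real.log N)) where
  zero := by simp
  pos := fun N hN => by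
    have : (1 : ℝ) ≤ N := by exact_mod_cast hN
    have h2 := Real.log_nonneg this
    positivity
  le := fun N k hk => by
    have hk' : (1 : ℝ) ≤ k := by exact_mod_cast hk
    rcases Nat.eq_zero_or_pos (N / k) with h | h
    · have : 0 ≤ Real.log (N : ℝ) := Real.log_natCast_nonneg N
      simp only [h]
      simp
      positivity
    · have h0 : ((N / k : ℕ) : ℝ) ≤ (N : ℝ) / k := Nat.cast_div_le
      have h1 : (0 : ℝ) < ((N / k : ℕ) : ℝ) := by exact_mod_cast h
      have h2 : ((N / k : ℕ) : ℝ) ≤ N := by exact_mod_cast Nat.div_le_self N k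
      have h3 : Real.log ((N / k : ℕ) : ℝ) ≤ Real.log N := Real.log_le_log h1 h2
      have h4 : 0 ≤ Real.log ((N / k : ℕ) : ℝ) := Real.log_natCast_nonneg _
      calc ((N / k : ℕ) : ℝ) * (1 + Real.log ((N / k : ℕ) : ℝ)) ≤ ((N : ℝ) / k) * (1 + Real.log N) := by
            apply mul_le_mul h0 (by linarith) (by linarith) (by positivity)
        _ = (N : ℝ) * (1 + Real.log N) / k := by ring
  lim := fun k hk => by
    have hk' : (0 : ℝ) < k := by exact_mod_cast hk
    have hid := isWt_id.lim k hk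
    have hlogN : Tendsto (fun N : ℕ => 1 + Real.log (N : ℝ)) atTop atTop :=
      tendsto_atTop_add_const_left _ _ (Real.tendsto_log_atTop.comp tendsto_natCast_atTop_atTop)
    have hlog : Tendsto (fun N : ℕ => (1 + Real.log ((N / k : ℕ) : ℝ)) / (1 + Real.log (N : ℝ))) atTop (𝓝 1) := by
      have h1 : Tendsto (fun N : ℕ => Real.log (((N / k : ℕ) : ℝ) / N)) atTop (𝓝 (Real.log (1 / k))) :=
        (Real.continuousAt_log (by positivity)).tendsto.comp hid
      have h2 := h1.div_atTop hlogN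
      have h3 : Tendsto (fun N : ℕ => 1 + Real.log (((N / k : ℕ) : ℝ) / N) / (1 + Real.log (N : ℝ))) atTop (𝓝 (1 + 0)) :=
        h2.const_add 1
      rw [add_zero] at h3
      refine h3.congr' ?_
      filter_upwards [eventually_ge_atTop k, hlogN.eventually_gt_atTop 0] with N hN hpos
      have h5 : (0 : ℝ) < ((N / k : ℕ) : ℝ) := by exact_mod_cast Nat.div_pos hN hk
      have h6 : (0 : ℝ) < (N : ℝ) := by exact_mod_cast (Nat.lt_of_lt_of_le hk hN)
      rw [Real.log_div h5.ne' h6.ne']
      field_simp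
      ring
    have := hid.mul hlog
    rw [mul_one] at this
    refine this.congr ?_
    intro N
    rw [div_mul_div_comm]

end Pool.Agent.Helper919
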