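import Mathlib
import Pool.Agent.Helper919.Char
import Pool.Agent.Helper919.Stage

set_option autoImplicit false

namespace Pool.Agent.Helper919

open Finset ArithmeticFunction Filter Topology
open scoped ArithmeticFunction.Moebius ArithmeticFunction.zeta

theorem abel_bound (X u : ℕ → ℝ) (D : ℕ) (B : ℝ) (hB : ∀ N, D ≤ N → |∑ d ∈ Ioc D N, X d| ≤ B)
    (hu0 : ∀ d, D + 1 ≤ d → 0 ≤ u d) (hu : ∀ d, D + 1 ≤ d → u (d + 1) ≤ u d) (N : ℕ)
    (hN : D + 1 ≤ N) : |∑ d ∈ Ioc D N, X d * u d| ≤ B * u (D + 1) := by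
  have hind : ∀ N, D + 1 ≤ N →
      |∑ d ∈ Ioc D N, X d * u d - (∑ d ∈ Ioc D N, X d) * u N| ≤ B * (u (D + 1) - u N) := by
    intro N hN
    induction N, hN using Nat.le_induction with
    | base => simp
    | succ N hN ih =>
      rw [← Finset.insert_Ioc_right_eq_Ioc_add_one (by omega : D ≤ N), Finset.sum_insert (by simp),
        Finset.sum_insert (by simp)]
      have h1 : X (N + 1) * u (N + 1) + ∑ d ∈ Ioc D N, X d * u d -
          (X (N + 1) + ∑ d ∈ Ioc D N, X d) * u (N + 1)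
          = (∑ d ∈ Ioc D N, X d * u d - (∑ d ∈ Ioc D N, X d) * u N) +
            (∑ d ∈ Ioc D N, X d) * (u N - u (N + 1)) := by ring
      rw [h1]
      have h2 : |(∑ d ∈ Ioc D N, X d) * (u N - u (N + 1))| ≤ B * (u N - u (N + 1)) := by
        rw [abs_mul, abs_of_nonneg (sub_nonneg.2 (hu N hN))]
        exact mul_le_mul_of_nonneg_right (hB N (by omega)) (sub_nonneg.2 (hu N hN))
      calc |(∑ d ∈ Ioc D N, X d * u d - (∑ d ∈ Ioc D N, X d) * u N) +
            (∑ d ∈ Ioc D N, X d) * (u N - u (N + 1))|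
          ≤ _ := abs_add_le _ _
        _ ≤ B * (u (D + 1) - u N) + B * (u N - u (N + 1)) := add_le_add ih h2
        _ = B * (u (D + 1) - u (N + 1)) := by ring
  have h1 := hind N hN
  have h2 : |(∑ d ∈ Ioc D N, X d) * u N| ≤ B * u N := by
    rw [abs_mul, abs_of_nonneg (hu0 N hN)]
    exact mul_le_mul_of_nonneg_right (hB N (by omega)) (hu0 N hN)
  calc |∑ d ∈ Ioc D N, X d * u d|
      = |(∑ d ∈ Ioc D N, X d * u d - (∑ d ∈ Ioc D N, X d) * u N) + (∑ d ∈ Ioc D N, X d) * u N| := by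
        congr 1; ring
    _ ≤ _ := abs_add_le _ _
    _ ≤ B * (u (D + 1) - u N) + B * u N := add_le_add h1 h2
    _ = B * u (D + 1) := by ring

theorem tendsto_cauchy_of_approx (F : ℕ → ℝ)
    (h : ∀ ε : ℝ, 0 < ε → ∃ g : ℕ → ℝ, (∃ l, Tendsto g atTop (𝓝 l)) ∧ ∀ᶠ N in atTop, |F N - g N| ≤ ε) :
    ∃ L, Tendsto F atTop (𝓝 L) := by
  apply cauchySeq_tendsto_of_complete
  rw [Metric.cauchySeq_iff]
  intro ε hε
  obtain ⟨g, ⟨l, hl⟩, hg⟩ := h (ε / 4) (by linarith)
  have hc := hl.cauchySeq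
  rw [Metric.cauchySeq_iff] at hc
  obtain ⟨N1, hN1⟩ := hc (ε / 4) (by linarith)
  obtain ⟨N2, hN2⟩ := eventually_atTop.1 hg
  refine ⟨max N1 N2, fun m hm k hk => ?_⟩
  have h1 := hN1 m (le_trans (le_max_left _ _) hm) k (le_trans (le_max_left _ _) hk)
  have h2 := hN2 m (le_trans (le_max_right _ _) hm)
  have h3 := hN2 k (le_trans (le_max_right _ _) hk)
  rw [Real.dist_eq] at h1 ⊢
  rw [abs_le] at h2 h3
  rw [abs_lt] at h1 ⊢
  constructor <;> linarith [h1.1, h1.2, h2.1, h2.2, h3.1, h3.2]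

theorem stage0_exists (n : ℤ) (hn : n ≠ 0) (hsq : ¬ IsSquare n) :
    ∃ L, Tendsto (fun N : ℕ => (∑ m ∈ Ioc 0 N, (XX n * (ζ : ArithmeticFunction ℝ)) m) / (N : ℝ)) atTop (𝓝 L) := by
  have hform : ∀ N : ℕ, ∑ m ∈ Ioc 0 N, (XX n * (ζ : ArithmeticFunction ℝ)) m
      = ∑ d ∈ Ioc 0 N, XX n d * ((N / d : ℕ) : ℝ) := fun N => sum_Ioc_mul_zeta_eq_sum (XX n) N
  simp_rw [hform]
  apply tendsto_cauchy_of_approx
  intro ε hε
  set B : ℝ := 8 * n.natAbs with hBdef
  have hB0 : 0 ≤ B := by positivity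
  obtain ⟨D, hD⟩ := exists_nat_gt (B / ε)
  have hDpos : (0 : ℝ) < D + 1 := by positivity
  have hBD : B / (D + 1) ≤ ε := by
    rw [div_le_iff₀ hDpos]
    rw [div_lt_iff₀ hε] at hD
    nlinarith
  refine ⟨fun N => (∑ d ∈ Ioc 0 D, XX n d * ((N / d : ℕ) : ℝ)) / (N : ℝ), ?_, ?_⟩
  · refine ⟨∑ d ∈ Ioc 0 D, XX n d * (1 / (d : ℝ)), ?_⟩
    have h1 : Tendsto (fun N : ℕ => ∑ d ∈ Ioc 0 D, XX n d * (((N / d : ℕ) : ℝ) / (N : ℝ))) atTop
        (𝓝 (∑ d ∈ Ioc 0 D, XX n d * (1 / (d : ℝ)))) := by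
      apply tendsto_finsetSum
      intro d hd
      exact (isWt_id.lim d (Finset.mem_Ioc.1 hd).1).const_mul _
    refine h1.congr fun N => ?_
    rw [Finset.sum_div]
    refine Finset.sum_congr rfl fun d _ => ?_
    ring
  · filter_upwards [eventually_ge_atTop (D + 1)] with N hN
    have hNpos : (0 : ℝ) < N := by exact_mod_cast (by omega : 0 < N)
    rw [← sub_div]
    have hsplit : ∑ d ∈ Ioc 0 N, XX n d * ((N / d : ℕ) : ℝ) - ∑ d ∈ Ioc 0 D, XX n d * ((N / d : ℕ) : ℝ)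
        = ∑ d ∈ Ioc D N, XX n d * ((N / d : ℕ) : ℝ) := by
      rw [sub_eq_iff_eq_add, add_comm]
      rw [Finset.sum_Ioc_consecutive _ (Nat.zero_le D) (by omega)]
    rw [hsplit, abs_div, abs_of_pos hNpos, div_le_iff₀ hNpos]
    have hS : ∀ M, D ≤ M → |∑ d ∈ Ioc D M, XX n d| ≤ B := by
      intro M hM
      have h1 := XX_sum_bound n hn hsq M
      have h2 := XX_sum_bound n hn hsq D
      have h3 : ∑ d ∈ Ioc D M, XX n d = ∑ d ∈ Ioc 0 M, XX n d - ∑ d ∈ Ioc 0 D, XX n d := by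
        rw [eq_sub_iff_add_eq, add_comm, Finset.sum_Ioc_consecutive _ (Nat.zero_le D) hM]
      rw [h3, hBdef]
      rw [abs_le] at h1 h2 ⊢
      constructor <;> linarith [h1.1, h1.2, h2.1, h2.2]
    have h4 := abel_bound (fun d => XX n d) (fun d => ((N / d : ℕ) : ℝ)) D B hS
      (fun d _ => Nat.cast_nonneg _)
      (fun d hd => by
        have : N / (d + 1) ≤ N / d := Nat.div_le_div_left (by omega) (by omega)
        exact_mod_cast this) N hN
    refine h4.trans ?_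
    have h5 : ((N / (D + 1) : ℕ) : ℝ) ≤ (N : ℝ) / (D + 1) := by
      have := @Nat.cast_div_le ℝ _ _ _ N (D + 1)
      push_cast at this
      exact this
    calc B * ((N / (D + 1) : ℕ) : ℝ) ≤ B * ((N : ℝ) / (D + 1)) := mul_le_mul_of_nonneg_left h5 hB0
      _ = B / (D + 1) * N := by ring
      _ ≤ ε * N := mul_le_mul_of_nonneg_right hBD hNpos.le

theorem XXz_nonneg (n : ℤ) (m : ℕ) : 0 ≤ (XX n * (ζ : ArithmeticFunction ℝ)) m := by
  rcases Nat.eq_zero_or_pos m with hm | hm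
  · subst hm; simp
  rw [IsMultiplicative.multiplicative_factorization _ ((XX_mult n).mul isMultiplicative_zeta.natCast) hm.ne']
  apply Finset.prod_nonneg
  intro p hp
  have hpp := Nat.prime_of_mem_primeFactors (by simpa using hp)
  change 0 ≤ (XX n * (ζ : ArithmeticFunction ℝ)) (p ^ (m.factorization p))
  rw [coe_mul_zeta_apply, Nat.sum_divisors_prime_pow hpp]
  simp_rw [XX_pow]
  by_cases h : p ∣ qq n
  · rw [XX_eq_zero_of_dvd hpp h]
    exact Finset.sum_nonneg fun i _ => pow_nonneg le_rfl _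
  · rcases (XX_of_not_dvd hpp h).2 with hx | hx
    · rw [hx]; exact Finset.sum_nonneg fun i _ => pow_nonneg zero_le_one _
    · rw [hx, neg_one_geom_sum]; split_ifs <;> norm_num

theorem stage0_nonsquare (n : ℤ) (hn : n ≠ 0) (hsq : ¬ IsSquare n) :
    ∃ L : ℝ, 0 < L ∧
      Tendsto (fun N : ℕ => (∑ m ∈ Ioc 0 N, (XX n * (ζ : ArithmeticFunction ℝ)) m) / (N : ℝ)) atTop (𝓝 L) := by
  obtain ⟨L, hL⟩ := stage0_exists n hn hsq
  refine ⟨L, ?_, hL⟩
  have hL0 : 0 ≤ L := ge_of_tendsto' hL fun N =>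
    div_nonneg (Finset.sum_nonneg fun m _ => XXz_nonneg n m) (Nat.cast_nonneg _)
  refine lt_of_le_of_ne hL0 (fun h => ?_)
  have hne : NeZero (4 * n.natAbs) := ⟨by have := Int.natAbs_pos.2 hn; omega⟩
  have hpsi := DirichletCharacter.LFunction_apply_one_ne_zero (psi_ne_one n hn hsq)
  have hL' : Tendsto (fun N : ℕ => (∑ k ∈ Icc 1 N, (XX n * (ζ : ArithmeticFunction ℝ)) k) / (N : ℝ)) atTop (𝓝 L) := hL
  have h1 := LSeries_tendsto_sub_mul_nhds_one_of_tendsto_sum_div_and_nonneg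
    (fun k => (XX n * (ζ : ArithmeticFunction ℝ)) k) hL' (XXz_nonneg n)
  -- the other computation of the limit
  have h2 : Tendsto (fun s : ℝ => ((s : ℂ) - 1) * riemannZeta s) (𝓝[>] 1) (𝓝 1) := by
    have h3 : Tendsto (fun s : ℝ => (s : ℂ)) (𝓝[>] (1 : ℝ)) (𝓝[≠] (1 : ℂ)) := by
      rw [tendsto_nhdsWithin_iff]
      constructor
      · have : Tendsto (fun s : ℝ => (s : ℂ)) (𝓝 (1 : ℝ)) (𝓝 ((1 : ℝ) : ℂ)) :=
          Complex.continuous_ofReal.tendsto 1
        rw [Complex.ofReal_one] at this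
        exact this.mono_left nhdsWithin_le_nhds
      · filter_upwards [self_mem_nhdsWithin] with s hs
        simp only [Set.mem_compl_iff, Set.mem_singleton_iff]
        intro h4
        have h5 : s = 1 := by exact_mod_cast h4
        rw [h5] at hs
        exact lt_irrefl (1 : ℝ) (Set.mem_Ioi.1 hs)
    exact riemannZeta_residue_one.comp h3
  have h3 : Tendsto (fun s : ℝ => DirichletCharacter.LFunction (psi n hn) (s : ℂ)) (𝓝[>] 1)
      (𝓝 (DirichletCharacter.LFunction (psi n hn) 1)) := by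
    have hd := (DirichletCharacter.differentiable_LFunction (psi_ne_one n hn hsq)).continuous
    have h4 := (hd.comp Complex.continuous_ofReal).tendsto 1
    simp only [Function.comp, Complex.ofReal_one] at h4
    exact h4.mono_left nhdsWithin_le_nhds
  have h4 := h2.mul h3
  rw [one_mul] at h4
  have h5 : Tendsto (fun s : ℝ => ((s : ℂ) - 1) * LSeries (fun k => (((XX n * (ζ : ArithmeticFunction ℝ)) k : ℝ) : ℂ)) s)
      (𝓝[>] 1) (𝓝 (DirichletCharacter.LFunction (psi n hn) 1)) := by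
    refine h4.congr' ?_
    filter_upwards [self_mem_nhdsWithin] with s hs
    have hs' : 1 < (s : ℂ).re := by simpa using hs
    rw [mul_assoc]
    congr 1
    rw [DirichletCharacter.LFunction_eq_LSeries _ hs', ← LSeries_zeta_eq_riemannZeta hs',
      mul_comm]
    rw [← LSeries_convolution' (DirichletCharacter.LSeriesSummable_of_one_lt_re _ hs')
      (LSeriesSummable_zeta_iff.2 hs')]
    apply LSeries_congr
    intro k hk
    rw [LSeries.convolution_def, ArithmeticFunction.mul_apply]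
    push_cast
    refine Finset.sum_congr rfl fun x hx => ?_
    rw [psi_apply]
    simp only [natCoe_apply, zeta_apply]
    split_ifs <;> simp
  have h6 := tendsto_nhds_unique h1 h5
  rw [← h] at h6
  apply hpsi
  rw [← h6]; simp

end Pool.Agent.Helper919
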