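import Mathlib
import Pool.Agent.Helper919.Stage0
import Pool.Agent.Helper919.Consts

set_option autoImplicit false

namespace Pool.Agent.Helper919

open Finset ArithmeticFunction Filter Topology
open scoped ArithmeticFunction.Moebius ArithmeticFunction.zeta

theorem XX_eq_D0_of_sq (n : ℤ) (hn : n ≠ 0) (hsq : IsSquare n) : XX n = D0 n := by
  ext d
  obtain ⟨k, hk⟩ := hsq
  by_cases h : d ≠ 0 ∧ d.Coprime (qq n)
  · rw [D0_apply, if_pos h]
    have hco := h.2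
    unfold qq at hco
    have h2 : Nat.Coprime d 2 := Nat.Coprime.coprime_dvd_right (dvd_mul_right _ _) hco
    have h3 : Nat.Coprime d n.natAbs := Nat.Coprime.coprime_dvd_right (dvd_mul_left _ _) hco
    have ho : Odd d := Nat.coprime_two_right.1 h2
    rw [XX_apply, if_pos ho]
    have h4 : k.gcd d = 1 := by
      rw [Int.gcd_eq_natAbs]
      simp only [Int.natAbs_natCast]
      have : k.natAbs ∣ n.natAbs := by rw [hk, Int.natAbs_mul]; exact dvd_mul_right _ _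
      exact Nat.Coprime.coprime_dvd_left this h3.symm
    rw [hk, ← sq, jacobiSym.pow_left, jacobiSym.sq_one h4]; simp
  · rw [D0_apply, if_neg h]
    apply XX_zero_of_not_coprime
    intro h2
    apply h
    refine ⟨?_, ?_⟩
    · rintro rfl
      rw [Nat.coprime_zero_left] at h2
      omega
    · unfold qq
      have : 2 * n.natAbs ∣ 4 * n.natAbs := ⟨2, by ring⟩
      exact Nat.Coprime.coprime_dvd_right this h2

theorem zeta_zeta_sum :
    Tendsto (fun N : ℕ => (∑ m ∈ Ioc 0 N, ((ζ : ArithmeticFunction ℝ) * (ζ : ArithmeticFunction ℝ)) m) /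
      ((N : ℝ) * (1 + Real.log N))) atTop (𝓝 1) := by
  have hform : ∀ N : ℕ, ∑ m ∈ Ioc 0 N, ((ζ : ArithmeticFunction ℝ) * (ζ : ArithmeticFunction ℝ)) m
      = ∑ d ∈ Ioc 0 N, ((N / d : ℕ) : ℝ) := by
    intro N
    rw [sum_Ioc_mul_zeta_eq_sum]
    refine Finset.sum_congr rfl fun d hd => ?_
    have hd0 : d ≠ 0 := by have := (Finset.mem_Ioc.1 hd).1; omega
    rw [natCoe_apply, zeta_apply_ne hd0]; simp
  simp_rw [hform]
  have hharm : ∀ N : ℕ, ((harmonic N : ℚ) : ℝ) = ∑ d ∈ Ioc 0 N, 1 / (d : ℝ) := by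
    intro N
    rw [harmonic_eq_sum_Icc]
    push_cast
    refine Finset.sum_congr ?_ fun d _ => by rw [one_div]
    ext x; simp [Finset.mem_Icc, Finset.mem_Ioc, Nat.succ_le_iff]
  have hup : ∀ N : ℕ, ∑ d ∈ Ioc 0 N, ((N / d : ℕ) : ℝ) ≤ (N : ℝ) * (1 + Real.log N) := by
    intro N
    calc ∑ d ∈ Ioc 0 N, ((N / d : ℕ) : ℝ) ≤ ∑ d ∈ Ioc 0 N, (N : ℝ) * (1 / (d : ℝ)) := by
          refine Finset.sum_le_sum fun d _ => ?_
          have := @Nat.cast_div_le ℝ _ _ _ N d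
          rw [mul_one_div]; exact this
      _ = (N : ℝ) * ((harmonic N : ℚ) : ℝ) := by rw [← Finset.mul_sum, hharm]
      _ ≤ (N : ℝ) * (1 + Real.log N) :=
          mul_le_mul_of_nonneg_left (harmonic_le_one_add_log N) (Nat.cast_nonneg _)
  have hlow : ∀ N : ℕ, (N : ℝ) * Real.log N - N ≤ ∑ d ∈ Ioc 0 N, ((N / d : ℕ) : ℝ) := by
    intro N
    have h1 : ∑ d ∈ Ioc 0 N, ((N : ℝ) * (1 / (d : ℝ)) - 1) ≤ ∑ d ∈ Ioc 0 N, ((N / d : ℕ) : ℝ) := by
      refine Finset.sum_le_sum fun d hd => ?_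
      have hd0 : 0 < d := (Finset.mem_Ioc.1 hd).1
      have hdr : (0 : ℝ) < d := by exact_mod_cast hd0
      have h2 := Nat.lt_div_mul_add (a := N) (b := d) hd0
      have h3 : (N : ℝ) < ((N / d : ℕ) : ℝ) * d + d := by exact_mod_cast h2
      rw [mul_one_div, sub_le_iff_le_add, div_le_iff₀ hdr]
      nlinarith
    have h2 : ∑ d ∈ Ioc 0 N, ((N : ℝ) * (1 / (d : ℝ)) - 1) = (N : ℝ) * ((harmonic N : ℚ) : ℝ) - N := by
      rw [Finset.sum_sub_distrib, ← Finset.mul_sum, hharm]; simp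
    have h3 : Real.log N ≤ ((harmonic N : ℚ) : ℝ) := by
      rcases Nat.eq_zero_or_pos N with h | h
      · subst h; simp
      · have hN : (0 : ℝ) < N := by exact_mod_cast h
        refine le_trans (Real.log_le_log hN ?_) (log_add_one_le_harmonic N)
        push_cast
        linarith
    rw [h2] at h1
    have h4 := mul_le_mul_of_nonneg_left h3 (Nat.cast_nonneg N : (0 : ℝ) ≤ N)
    linarith
  have hlogN : Tendsto (fun N : ℕ => 1 + Real.log (N : ℝ)) atTop atTop :=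
    tendsto_atTop_add_const_left _ _ (Real.tendsto_log_atTop.comp tendsto_natCast_atTop_atTop)
  have hlowlim : Tendsto (fun N : ℕ => 1 - 2 / (1 + Real.log (N : ℝ))) atTop (𝓝 1) := by
    have : Tendsto (fun N : ℕ => (2 : ℝ) / (1 + Real.log (N : ℝ))) atTop (𝓝 0) :=
      tendsto_const_nhds.div_atTop hlogN
    have h2 := this.const_sub 1
    rwa [sub_zero] at h2
  refine tendsto_of_tendsto_of_tendsto_of_le_of_le' hlowlim tendsto_const_nhds ?_ ?_
  · filter_upwards [eventually_ge_atTop 1] with N hN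
    have hw := isWt_log.pos N hN
    have hN' : (1 : ℝ) ≤ N := by exact_mod_cast hN
    have hl := Real.log_nonneg hN'
    rw [le_div_iff₀ hw]
    have h1 := hlow N
    have h2 : (1 - 2 / (1 + Real.log (N : ℝ))) * ((N : ℝ) * (1 + Real.log N)) = (N : ℝ) * Real.log N - N := by
      field_simp
      ring
    rw [h2]; exact h1
  · filter_upwards [eventually_ge_atTop 1] with N hN
    have hw := isWt_log.pos N hN
    rw [div_le_one hw]
    exact hup N

theorem stage0_square (n : ℤ) (hn : n ≠ 0) (hsq : IsSquare n) :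
    ∃ L : ℝ, 0 < L ∧
      Tendsto (fun N : ℕ => (∑ m ∈ Ioc 0 N, (XX n * (ζ : ArithmeticFunction ℝ)) m) /
        ((N : ℝ) * (1 + Real.log N))) atTop (𝓝 L) := by
  refine ⟨1 * ∑' k : ℕ, MQ n k / k, ?_, ?_⟩
  · rw [one_mul]; exact MQ_tsum_pos n hn
  · have h1 : XX n * (ζ : ArithmeticFunction ℝ) = MQ n * ((ζ : ArithmeticFunction ℝ) * (ζ : ArithmeticFunction ℝ)) := by
      rw [XX_eq_D0_of_sq n hn hsq, ← MQ_zeta, mul_assoc]
    rw [h1]
    exact stage isWt_log (MQ n) _ zeta_zeta_sum (MQ_summable n hn)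

theorem sum_rho_of_stage0 {w : ℕ → ℝ} (hw : IsWt w) (n : ℤ) (hn : n ≠ 0) {L : ℝ} (hL : 0 < L)
    (h : Tendsto (fun N : ℕ => (∑ m ∈ Ioc 0 N, (XX n * (ζ : ArithmeticFunction ℝ)) m) / w N) atTop (𝓝 L)) :
    ∃ C : ℝ, 0 < C ∧ Tendsto (fun N : ℕ => (∑ c ∈ Ioc 0 N, (rho n c : ℝ)) / w N) atTop (𝓝 C) := by
  have h1 := stage hw (MQ n) _ h (MQ_summable n hn)
  have h2 := stage hw (Sq n) _ h1 (Sq_summable n)
  have h3 := stage hw (rho1 n) _ h2 (rho1_summable n hn)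
  rw [← rhoA_decomp hn] at h3
  refine ⟨_, ?_, h3⟩
  have a1 := MQ_tsum_pos n hn
  have a2 := Sq_tsum_pos n
  have a3 := rho1_tsum_pos n hn
  positivity

theorem sum_rho_nonsquare (n : ℤ) (hn : n ≠ 0) (hsq : ¬ IsSquare n) :
    ∃ C : ℝ, 0 < C ∧ Tendsto (fun N : ℕ => (∑ c ∈ Ioc 0 N, (rho n c : ℝ)) / (N : ℝ)) atTop (𝓝 C) := by
  obtain ⟨L, hL, h⟩ := stage0_nonsquare n hn hsq
  exact sum_rho_of_stage0 isWt_id n hn hL h

theorem sum_rho_square (n : ℤ) (hn : n ≠ 0) (hsq : IsSquare n) :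
    ∃ C : ℝ, 0 < C ∧ Tendsto (fun N : ℕ => (∑ c ∈ Ioc 0 N, (rho n c : ℝ)) /
      ((N : ℝ) * (1 + Real.log N))) atTop (𝓝 C) := by
  obtain ⟨L, hL, h⟩ := stage0_square n hn hsq
  exact sum_rho_of_stage0 isWt_log n hn hL h

end Pool.Agent.Helper919
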