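import Mathlib
import Pool.Agent.Helper919.IrrCount
import Pool.Agent.Helper919.Reg
import Pool.Agent.Helper919.SumRho

set_option autoImplicit false

namespace Pool.Agent.Helper919

open Finset Filter Topology

theorem sort_three (x y z : ℕ) (hxy : x ≠ y) (hxz : x ≠ z) (hyz : y ≠ z) :
    ∃ a b c : ℕ, a < b ∧ b < c ∧ ({x, y, z} : Finset ℕ) = {a, b, c} := by
  rcases lt_or_gt_of_ne hxy with h1 | h1 <;> rcases lt_or_gt_of_ne hxz with h2 | h2 <;>
    rcases lt_or_gt_of_ne hyz with h3 | h3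
  · exact ⟨x, y, z, h1, h3, rfl⟩
  · exact ⟨x, z, y, h2, h3, by ext t; simp; tauto⟩
  · omega
  · exact ⟨z, x, y, h2, h1, by ext t; simp; tauto⟩
  · exact ⟨y, x, z, h1, h2, by ext t; simp; tauto⟩
  · omega
  · exact ⟨y, z, x, h3, h2, by ext t; simp; tauto⟩
  · exact ⟨z, y, x, h3, h1, by ext t; simp; tauto⟩

theorem ncard_eq (n : ℤ) (N : ℕ) :
    {S : Finset ℕ | S ⊆ Finset.Icc 1 N ∧ S.card = 3 ∧
      ∀ a ∈ S, ∀ b ∈ S, a ≠ b → IsSquare ((a : ℤ) * (b : ℤ) + n)}.ncard = (tr n N).card := by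
  have himg : {S : Finset ℕ | S ⊆ Finset.Icc 1 N ∧ S.card = 3 ∧
      ∀ a ∈ S, ∀ b ∈ S, a ≠ b → IsSquare ((a : ℤ) * (b : ℤ) + n)} =
      (fun x : ℕ × ℕ × ℕ => ({x.1, x.2.1, x.2.2} : Finset ℕ)) '' ((tr n N : Finset (ℕ × ℕ × ℕ)) : Set (ℕ × ℕ × ℕ)) := by
    ext S
    simp only [Set.mem_ofPred_eq, Set.mem_image, mem_coe]
    constructor
    · rintro ⟨h1, h2, h3⟩
      obtain ⟨x, y, z, hxy, hxz, hyz, hS⟩ := Finset.card_eq_three.1 h2
      obtain ⟨a, b, c, hab, hbc, hS2⟩ := sort_three x y z hxy hxz hyz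
      rw [hS2] at hS
      subst hS
      have ha := Finset.mem_Icc.1 (h1 (by simp : a ∈ ({a, b, c} : Finset ℕ)))
      have hc := Finset.mem_Icc.1 (h1 (by simp : c ∈ ({a, b, c} : Finset ℕ)))
      refine ⟨(a, b, c), ?_, rfl⟩
      rw [mem_tr]
      refine ⟨ha.1, hab, hbc, hc.2, ?_, ?_, ?_⟩
      · exact h3 a (by simp) b (by simp) (by omega)
      · exact h3 a (by simp) c (by simp) (by omega)
      · exact h3 b (by simp) c (by simp) (by omega)
    · rintro ⟨⟨a, b, c⟩, hx, rfl⟩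
      rw [mem_tr] at hx
      obtain ⟨h1, h2, h3, h4, h5, h6, h7⟩ := hx
      simp only at h1 h2 h3 h4 h5 h6 h7
      refine ⟨?_, ?_, ?_⟩
      · intro t ht
        simp only [Finset.mem_insert, Finset.mem_singleton] at ht
        rw [Finset.mem_Icc]
        omega
      · rw [Finset.card_eq_three]
        exact ⟨a, b, c, by omega, by omega, by omega, rfl⟩
      · intro u hu v hv huv
        simp only [Finset.mem_insert, Finset.mem_singleton] at hu hv
        rcases hu with rfl | rfl | rfl <;> rcases hv with rfl | rfl | rfl <;>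
          first
          | exact absurd rfl huv
          | exact h5
          | exact h6
          | exact h7
          | (rw [mul_comm]; first | exact h5 | exact h6 | exact h7)
  rw [himg, Set.InjOn.ncard_image, Set.ncard_coe_finset]
  rintro ⟨a, b, c⟩ hx ⟨a', b', c'⟩ hx' h
  rw [mem_coe, mem_tr] at hx hx'
  obtain ⟨h1, h2, h3, h4, _⟩ := hx
  obtain ⟨h1', h2', h3', h4', _⟩ := hx'
  simp only at h h1 h2 h3 h4 h1' h2' h3' h4'
  rw [Finset.ext_iff] at h
  simp only [Finset.mem_insert, Finset.mem_singleton] at h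
  have e1 := (h a).1 (Or.inl rfl)
  have e2 := (h b).1 (Or.inr (Or.inl rfl))
  have e3 := (h c).1 (Or.inr (Or.inr rfl))
  have e4 := (h a').2 (Or.inl rfl)
  have e5 := (h b').2 (Or.inr (Or.inl rfl))
  have e6 := (h c').2 (Or.inr (Or.inr rfl))
  have r1 : a = a' := by omega
  have r2 : b = b' := by omega
  have r3 : c = c' := by omega
  rw [r1, r2, r3]

theorem tr_card (n : ℤ) (N : ℕ) :
    (tr n N).card = ∑ c ∈ Ioc 0 N, (regc n c).card + (trI n N).card := by
  classical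
  have h1 : (tr n N).card = ((tr n N).filter (fun x => IsReg n x.1 x.2.1 x.2.2)).card + (trI n N).card := by
    unfold trI
    rw [Finset.card_filter_add_card_filter_not]
  rw [h1]
  congr 1
  rw [Finset.card_eq_sum_card_fiberwise (f := fun x : ℕ × ℕ × ℕ => x.2.2) (t := Ioc 0 N)]
  · refine Finset.sum_congr rfl fun c hc => ?_
    refine Finset.card_bij (fun x _ => (x.1, x.2.1)) ?_ ?_ ?_
    · intro x hx
      simp only [mem_filter, mem_tr] at hx
      rw [mem_regc]
      obtain ⟨⟨⟨h2, h3, h4, h5, h6⟩, h7⟩, h8⟩ := hx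
      subst h8
      exact ⟨h2, h3, h4, h6, h7⟩
    · intro x hx y hy hxy
      simp only [mem_filter] at hx hy
      simp only [Prod.mk.injEq] at hxy
      exact Prod.ext hxy.1 (Prod.ext hxy.2 (by rw [hx.2, hy.2]))
    · intro p hp
      rw [mem_regc] at hp
      obtain ⟨h2, h3, h4, h6, h7⟩ := hp
      refine ⟨(p.1, p.2, c), ?_, rfl⟩
      simp only [mem_filter, mem_tr]
      exact ⟨⟨⟨h2, h3, h4, (mem_Ioc.1 hc).2, h6⟩, h7⟩, trivial⟩
  · intro x hx
    simp only [coe_filter, Set.mem_ofPred_eq, mem_tr] at hx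
    simp only [coe_Ioc, Set.mem_Ioc]
    obtain ⟨⟨h2, h3, h4, h5, h6⟩, h7⟩ := hx
    exact ⟨by omega, h5⟩

/-- the error term -/
noncomputable def EE (n : ℤ) (c : ℕ) : ℝ := 2 * ((regc n c).card : ℝ) - (rho n c : ℝ)

theorem EE_bound (n : ℤ) (hn : n ≠ 0) (c : ℕ) (hc : 2 * n.natAbs < c) :
    |EE n c| ≤ 2 ∧ (¬ IsSquare n → EE n c = 0) := by
  have h1 := regc_card n hn c hc
  have h2 := rho_eq_two_PP n hn c hc
  obtain ⟨h3, h4, h5⟩ := PP'_card_bounds n c hc
  unfold EE
  rw [h1, h2]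
  constructor
  · have h3' : ((PP' n c).card : ℝ) ≤ (PP n c).card := by exact_mod_cast h3
    have h4' : ((PP n c).card : ℝ) ≤ (PP' n c).card + 1 := by exact_mod_cast h4
    push_cast
    rw [abs_le]
    constructor <;> linarith
  · intro h
    rw [h5 h]; push_cast; ring

theorem EE_sum_bound (n : ℤ) (hn : n ≠ 0) :
    ∃ M : ℝ, 0 ≤ M ∧ ∀ N, |∑ c ∈ Ioc 0 N, EE n c| ≤ M + 2 * N ∧
      (¬ IsSquare n → |∑ c ∈ Ioc 0 N, EE n c| ≤ M) := by
  refine ⟨∑ c ∈ Ioc 0 (2 * n.natAbs), |EE n c|, Finset.sum_nonneg fun c _ => abs_nonneg _, fun N => ?_⟩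
  have h1 : ∀ c, |EE n c| ≤ (if c ∈ Ioc 0 (2 * n.natAbs) then |EE n c| else 0) + 2 := by
    intro c
    by_cases h : c ∈ Ioc 0 (2 * n.natAbs)
    · rw [if_pos h]; linarith
    · rw [if_neg h]
      by_cases hc : 2 * n.natAbs < c
      · have := (EE_bound n hn c hc).1; linarith
      · have hc0 : c = 0 := by
          simp only [mem_Ioc] at h; omega
        subst hc0
        have : EE n 0 = 0 := by
          unfold EE
          rw [rho_zero]
          have : regc n 0 = ∅ := by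
            rw [Finset.eq_empty_iff_forall_notMem]
            intro x hx
            rw [mem_regc] at hx
            omega
          rw [this]; simp
        rw [this]; simp
  have h1' : ¬ IsSquare n → ∀ c, |EE n c| ≤ (if c ∈ Ioc 0 (2 * n.natAbs) then |EE n c| else 0) := by
    intro hsq c
    by_cases h : c ∈ Ioc 0 (2 * n.natAbs)
    · rw [if_pos h]
    · rw [if_neg h]
      by_cases hc : 2 * n.natAbs < c
      · rw [(EE_bound n hn c hc).2 hsq]; simp
      · have hc0 : c = 0 := by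
          simp only [mem_Ioc] at h; omega
        subst hc0
        have : EE n 0 = 0 := by
          unfold EE
          rw [rho_zero]
          have : regc n 0 = ∅ := by
            rw [Finset.eq_empty_iff_forall_notMem]
            intro x hx
            rw [mem_regc] at hx
            omega
          rw [this]; simp
        rw [this]; simp
  have h2 : ∑ c ∈ Ioc 0 N, (if c ∈ Ioc 0 (2 * n.natAbs) then |EE n c| else 0) ≤
      ∑ c ∈ Ioc 0 (2 * n.natAbs), |EE n c| := by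
    rw [← Finset.sum_filter]
    apply Finset.sum_le_sum_of_subset_of_nonneg
    · intro c hc
      exact (Finset.mem_filter.1 hc).2
    · intro c _ _; exact abs_nonneg _
  constructor
  · calc |∑ c ∈ Ioc 0 N, EE n c| ≤ ∑ c ∈ Ioc 0 N, |EE n c| := Finset.abs_sum_le_sum_abs _ _
      _ ≤ ∑ c ∈ Ioc 0 N, ((if c ∈ Ioc 0 (2 * n.natAbs) then |EE n c| else 0) + 2) :=
          Finset.sum_le_sum fun c _ => h1 c
      _ = ∑ c ∈ Ioc 0 N, (if c ∈ Ioc 0 (2 * n.natAbs) then |EE n c| else 0) + 2 * N := by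
          rw [Finset.sum_add_distrib]; simp; ring
      _ ≤ _ := by linarith
  · intro hsq
    calc |∑ c ∈ Ioc 0 N, EE n c| ≤ ∑ c ∈ Ioc 0 N, |EE n c| := Finset.abs_sum_le_sum_abs _ _
      _ ≤ ∑ c ∈ Ioc 0 N, (if c ∈ Ioc 0 (2 * n.natAbs) then |EE n c| else 0) :=
          Finset.sum_le_sum fun c _ => h1' hsq c
      _ ≤ _ := h2

theorem tr_formula (n : ℤ) (N : ℕ) :
    ((tr n N).card : ℝ) = (∑ c ∈ Ioc 0 N, (rho n c : ℝ)) / 2 + (∑ c ∈ Ioc 0 N, EE n c) / 2 + ((trI n N).card : ℝ) := by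
  rw [tr_card]
  push_cast
  have : ∑ c ∈ Ioc 0 N, EE n c = 2 * ∑ c ∈ Ioc 0 N, ((regc n c).card : ℝ) - ∑ c ∈ Ioc 0 N, (rho n c : ℝ) := by
    unfold EE
    rw [Finset.sum_sub_distrib, ← Finset.mul_sum]
  rw [this]; ring

theorem trI_small (n : ℤ) (hn : n ≠ 0) :
    Tendsto (fun N : ℕ => ((trI n N).card : ℝ) / N) atTop (𝓝 0) := by
  obtain ⟨C, hC0, hC⟩ := trI_bound n hn
  have hy : Tendsto (fun N : ℕ => ((N : ℝ) ^ (1 / 16 : ℝ))) atTop atTop :=
    (tendsto_rpow_atTop (by norm_num)).comp tendsto_natCast_atTop_atTop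
  have hlim : Tendsto (fun N : ℕ => C / ((N : ℝ) ^ (1 / 16 : ℝ)) ^ 2) atTop (𝓝 0) :=
    tendsto_const_nhds.div_atTop ((tendsto_pow_atTop (by norm_num)).comp hy)
  refine squeeze_zero' (Eventually.of_forall fun N => by positivity) ?_ hlim
  filter_upwards [eventually_ge_atTop 1] with N hN
  have hNR : (1 : ℝ) ≤ N := by exact_mod_cast hN
  set y := (N : ℝ) ^ (1 / 16 : ℝ) with hydef
  have hy1 : 1 ≤ y := Real.one_le_rpow hNR (by norm_num)
  have hy16 : y ^ 16 = (N : ℝ) := by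
    rw [hydef, ← Real.rpow_natCast, ← Real.rpow_mul (by positivity)]
    norm_num
  have h1 := hC N y hN hy1 hy16
  rw [← hy16, div_le_div_iff₀ (by positivity) (by positivity)]
  calc ((trI n N).card : ℝ) * y ^ 2 ≤ (C * y ^ 14) * y ^ 2 := mul_le_mul_of_nonneg_right h1 (by positivity)
    _ = C * y ^ 16 := by ring

theorem main_nonsquare (n : ℤ) (hn : n ≠ 0) (hsq : ¬ IsSquare n) :
    ∃ C : ℝ, 0 < C ∧ Tendsto (fun N : ℕ => ((tr n N).card : ℝ) / N) atTop (𝓝 C) := by
  obtain ⟨C, hC, h⟩ := sum_rho_nonsquare n hn hsq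
  obtain ⟨M, hM0, hM⟩ := EE_sum_bound n hn
  refine ⟨C / 2, by positivity, ?_⟩
  have h1 : Tendsto (fun N : ℕ => (∑ c ∈ Ioc 0 N, EE n c) / (N : ℝ)) atTop (𝓝 0) := by
    have h2 : Tendsto (fun N : ℕ => M / (N : ℝ)) atTop (𝓝 0) :=
      tendsto_const_nhds.div_atTop tendsto_natCast_atTop_atTop
    refine squeeze_zero_norm (fun N => ?_) h2
    rw [norm_div, Real.norm_eq_abs, Real.norm_natCast]
    exact div_le_div_of_nonneg_right ((hM N).2 hsq) (Nat.cast_nonneg _)
  have h2 := ((h.div_const 2).add (h1.div_const 2)).add (trI_small n hn)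
  rw [zero_div, add_zero, add_zero] at h2
  refine h2.congr fun N => ?_
  rw [tr_formula]; ring

theorem main_square (n : ℤ) (hn : n ≠ 0) (hsq : IsSquare n) :
    ∃ C : ℝ, 0 < C ∧ Tendsto (fun N : ℕ => ((tr n N).card : ℝ) / ((N : ℝ) * (1 + Real.log N))) atTop (𝓝 C) := by
  obtain ⟨C, hC, h⟩ := sum_rho_square n hn hsq
  obtain ⟨M, hM0, hM⟩ := EE_sum_bound n hn
  refine ⟨C / 2, by positivity, ?_⟩
  have hlogN : Tendsto (fun N : ℕ => 1 + Real.log (N : ℝ)) atTop atTop :=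
    tendsto_atTop_add_const_left _ _ (Real.tendsto_log_atTop.comp tendsto_natCast_atTop_atTop)
  have h1 : Tendsto (fun N : ℕ => (∑ c ∈ Ioc 0 N, EE n c) / ((N : ℝ) * (1 + Real.log N))) atTop (𝓝 0) := by
    have h2 : Tendsto (fun N : ℕ => (M + 2) / (1 + Real.log (N : ℝ))) atTop (𝓝 0) :=
      tendsto_const_nhds.div_atTop hlogN
    refine squeeze_zero_norm' ?_ h2
    filter_upwards [eventually_ge_atTop 1] with N hN
    have hw := isWt_log.pos N hN
    have hNR : (1 : ℝ) ≤ N := by exact_mod_cast hN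
    have hl : 0 < 1 + Real.log (N : ℝ) := by have := Real.log_nonneg hNR; linarith
    rw [norm_div, Real.norm_eq_abs, Real.norm_of_nonneg hw.le, div_le_div_iff₀ hw hl]
    have h3 : |∑ c ∈ Ioc 0 N, EE n c| ≤ (M + 2) * N := by
      have := (hM N).1
      nlinarith
    calc |∑ c ∈ Ioc 0 N, EE n c| * (1 + Real.log (N : ℝ)) ≤ ((M + 2) * N) * (1 + Real.log (N : ℝ)) :=
          mul_le_mul_of_nonneg_right h3 hl.le
      _ = _ := by ring
  have h3 : Tendsto (fun N : ℕ => ((trI n N).card : ℝ) / ((N : ℝ) * (1 + Real.log N))) atTop (𝓝 0) := by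
    have h4 := (trI_small n hn).div_atTop hlogN
    refine h4.congr fun N => ?_
    rw [div_div]
  have h2 := ((h.div_const 2).add (h1.div_const 2)).add h3
  rw [zero_div, add_zero, add_zero] at h2
  refine h2.congr fun N => ?_
  rw [tr_formula]; ring

end Pool.Agent.Helper919
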